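import Pool.Agent.H83.SiteG.GDefs
import Pool.Agent.H83.Site.Transfer

/-! # Transfer of the mean cluster size -/

set_option autoImplicit false

open MeasureTheory ProbabilityTheory unitInterval
open scoped ENNReal

namespace Pool.Agent.H83.Site

open Pool.Agent.H89.Perc

/-- The mean cluster size of site percolation is at least its truncated version. -/
theorem trunc_le_sigmaT (p : I) (r : Bool) (G : (ℤ × ℤ → Bool) → SimpleGraph (ℤ × ℤ))
    (hG : ∀ ω u v, (G ω).Adj u v ↔ ω u = true ∧ ω v = true ∧ SA r u v) (F : ℕ) (R : ℕ) :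
    ENNReal.ofReal (∑ z ∈ sB F, PT p r {η | TConn η (bT R) oT z}) ≤
      ∫⁻ ω, (({v | ω (0, 0) = true ∧ (G ω).Reachable (0, 0) v}.encard : ℕ∞) : ℝ≥0∞)
        ∂(Measure.infinitePi (fun _ : ℤ × ℤ => bernoulliMeasure true false p)) := by
  classical
  have hext : Measurable extS := by
    refine measurable_pi_lambda _ fun v => ?_
    exact measurable_pi_apply (v.1, v.2.1)
  have hres : Measurable resS := by
    refine measurable_pi_lambda _ fun v => ?_
    exact measurable_pi_apply (v.1, v.2, false)
  set ν := Measure.infinitePi (fun _ : ℤ × ℤ => bernoulliMeasure true false p) with hν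
  set T : TV → Set (ℤ × ℤ → Bool) :=
    fun z => {w | TConn (full r (extS w)) (bT R) oT z} with hT
  have hmeas0 : ∀ z : TV, MeasurableSet {ω : Config | full r ω ∈ {η | TConn η (bT R) oT z}} :=
    fun z => (localOn_full r (localOn_tconn _ _ _ _ oT z)).measurableSet
  have hmeas : ∀ z : TV, MeasurableSet (T z) := fun z => hext (hmeas0 z)
  rw [ENNReal.ofReal_sum_of_nonneg fun z _ => PT_nonneg]
  have h1 : ∀ z ∈ sB F, ENNReal.ofReal (PT p r {η | TConn η (bT R) oT z})
      = ∫⁻ w, Set.indicator (T z) (fun _ => (1 : ℝ≥0∞)) w ∂ν := by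
    intro z _
    rw [lintegral_indicator (hmeas z), lintegral_const, Measure.restrict_apply_univ, one_mul,
      hν, ← map_resS, Measure.map_apply hres (hmeas z)]
    unfold PT Pr
    rw [ofReal_measureReal]
    congr 1
    ext ω
    simp only [hT, Set.mem_preimage, Set.mem_ofPred_eq, full_extS_resS]
  rw [Finset.sum_congr rfl h1, ← lintegral_finsetSum (sB F) fun z _ =>
    (measurable_const.indicator (hmeas z))]
  refine lintegral_mono fun w => ?_
  have h2 : ∑ z ∈ sB F, Set.indicator (T z) (fun _ => (1 : ℝ≥0∞)) w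
      = (((sB F).filter (fun z => w ∈ T z)).card : ℝ≥0∞) := by
    rw [Finset.card_filter]
    push_cast
    refine Finset.sum_congr rfl fun z _ => ?_
    by_cases h : w ∈ T z
    · rw [Set.indicator_of_mem h, if_pos h]
    · rw [Set.indicator_of_notMem h, if_neg h]
  rw [h2]
  have h3 : (((sB F).filter (fun z => w ∈ T z)).card : ℕ∞)
      ≤ {v | w (0, 0) = true ∧ (G w).Reachable (0, 0) v}.encard := by
    have hinj : Set.InjOn (fun z : TV => ((z.1, z.2.1) : ℤ × ℤ))
        ((sB F).filter (fun z => w ∈ T z) : Finset TV) := by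
      rintro ⟨a, b, c⟩ h ⟨a', b', c'⟩ h' he
      rw [Finset.mem_coe, Finset.mem_filter] at h h'
      have e1 := (mem_sB.1 h.1).1
      have e2 := (mem_sB.1 h'.1).1
      simp only at e1 e2
      simp only [Prod.mk.injEq] at he
      rw [e1, e2, he.1, he.2]
    rw [← Finset.card_image_of_injOn hinj, ← Set.encard_coe_eq_coe_finsetCard]
    refine Set.encard_le_encard ?_
    intro v hv
    rw [Finset.mem_coe, Finset.mem_image] at hv
    obtain ⟨z, hz, rfl⟩ := hv
    rw [Finset.mem_filter] at hz
    obtain ⟨hz1, hz2⟩ := hz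
    obtain ⟨x, y, b⟩ := z
    have hb : b = false := (mem_sB.1 hz1).1
    subst hb
    have hc : TConn (full r (extS w)) (bT R) oT (x, y, false) := hz2
    have ho : w (0, 0) = true := by
      have := hc.open_left
      rw [oT, full_site] at this
      exact this
    have ho' : w (x, y) = true := by
      have := hc.open_right
      rw [full_site] at this
      exact this
    exact ⟨ho, reachable_of_tconn (u := (0, 0)) (hG w) hc (x, y) (by simp [crn]) ho'⟩
  rw [← ENat.toENNReal_coe]
  exact ENat.toENNReal_le.2 h3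

end Pool.Agent.H83.Site
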