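import Pool.Agent.H83.Site.Circ
import Pool.Agent.H83.Site.Crit

/-! # Closed circuits block arms -/

set_option autoImplicit false

open MeasureTheory ProbabilityTheory unitInterval

namespace Pool.Agent.H83.Site

open Pool.Agent.H89.Perc

theorem circ_block {η : Config} {s n R : ℕ} (hs : 1 ≤ s) (hn : n < s) (hR : 2 * s < R)
    (h : neg η ∈ CircE s) : η ∉ AB 0 0 n R := by
  rintro ⟨u, hu, w, hw, hc⟩
  obtain ⟨hT, hB, hRt, hL⟩ := h
  have hs' : (1 : ℤ) ≤ s := by exact_mod_cast hs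
  have hn' : (n : ℤ) < s := by exact_mod_cast hn
  have hR' : 2 * (s : ℤ) < R := by exact_mod_cast hR
  have hc2 : ((2 * s : ℕ) : ℤ) = 2 * s := by push_cast; ring
  have hu' := hu
  rw [mem_TR] at hu'
  obtain ⟨hw1, hw2, hw3⟩ := hw
  have e1 := fx_even hw2
  have e2 := fy_even hw2
  obtain ⟨z, hz, hz2⟩ := hc.to_sph (x := 0) (y := 0) (n := 2 * s)
    (by rw [mem_TR, hc2]; omega) (by rw [hc2]; omega)
  rw [hc2] at hz2
  simp only [zero_sub, zero_add] at hz2
  obtain ⟨hz3, hz4, hz5⟩ := hz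
  rw [hc2] at hz5
  simp only [zero_sub, zero_add] at hz5
  have hfx := fx_even hz4
  have hfy := fy_even hz4
  rcases hz5 with h1 | h1 | h1 | h1
  · obtain ⟨y, y', h3, -, -⟩ := hz2.symm.cross_x (a := -(2 * s)) (b := -s)
      (by rw [hfx]; omega) (by omega) (by omega)
    have h6 : TConn η (TR (-(2 * s)) (-s) (-(2 * s)) (2 * s)) (-(2 * s), y, false)
        (-s, y', false) := by
      refine h3.mono_set fun x hx => ?_
      obtain ⟨⟨_, hx1⟩, hx2⟩ := hx
      rw [mem_TR] at hx1 ⊢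
      simp only [Set.mem_ofPred_eq] at hx2
      omega
    exact not_hc_and_vc ⟨y, y', h6⟩ hL
  · obtain ⟨y, y', h3, -, -⟩ := hz2.cross_x (a := s) (b := 2 * s)
      (by omega) (by rw [hfx]; omega) (by omega)
    have h6 : TConn η (TR s (2 * s) (-(2 * s)) (2 * s)) (s, y, false) (2 * s, y', false) := by
      refine h3.mono_set fun x hx => ?_
      obtain ⟨⟨_, hx1⟩, hx2⟩ := hx
      rw [mem_TR] at hx1 ⊢
      simp only [Set.mem_ofPred_eq] at hx2
      omega
    exact not_hc_and_vc ⟨y, y', h6⟩ hRt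
  · obtain ⟨x, x', h3, -, -⟩ := hz2.symm.cross_y (c := -(2 * s)) (d := -s)
      (by rw [hfy]; omega) (by omega) (by omega)
    have h6 : TConn η (TR (-(2 * s)) (2 * s) (-(2 * s)) (-s)) (x, -(2 * s), false)
        (x', -s, false) := by
      refine h3.mono_set fun x hx => ?_
      obtain ⟨⟨_, hx1⟩, hx2⟩ := hx
      rw [mem_TR] at hx1 ⊢
      simp only [Set.mem_ofPred_eq] at hx2
      omega
    have h7 := not_hc_and_vc hB
    rw [neg_neg'] at h7
    exact h7 ⟨x, x', h6⟩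
  · obtain ⟨x, x', h3, -, -⟩ := hz2.cross_y (c := s) (d := 2 * s)
      (by omega) (by rw [hfy]; omega) (by omega)
    have h6 : TConn η (TR (-(2 * s)) (2 * s) s (2 * s)) (x, s, false) (x', 2 * s, false) := by
      refine h3.mono_set fun x hx => ?_
      obtain ⟨⟨_, hx1⟩, hx2⟩ := hx
      rw [mem_TR] at hx1 ⊢
      simp only [Set.mem_ofPred_eq] at hx2
      omega
    have h7 := not_hc_and_vc hT
    rw [neg_neg'] at h7
    exact h7 ⟨x, x', h6⟩

theorem ab_block {p₀ : I} {r : Bool} (h : BXP (σ p₀) (!r)) : ∃ c > (0 : ℝ), ∀ n R : ℕ,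
    4 * (n + 1) ≤ R → ab p₀ r n R ≤ 1 - c := by
  obtain ⟨c, hc, h4⟩ := h 4
  refine ⟨c ^ 4, by positivity, fun n R hR => ?_⟩
  have h1 := circ_prob hc h4 le_rfl (s := n + 1) (by omega)
  have h2 : PT p₀ r {η | neg η ∈ CircE (n + 1)} = PT (σ p₀) (!r) (CircE (n + 1)) :=
    PT_neg (localOn_CircE (n + 1))
  have h3 : PT p₀ r {η | neg η ∈ CircE (n + 1)}ᶜ = 1 - PT p₀ r {η | neg η ∈ CircE (n + 1)} :=
    PT_compl (LocalOn.neg (localOn_CircE (n + 1)))
  have h5 : ab p₀ r n R ≤ PT p₀ r {η | neg η ∈ CircE (n + 1)}ᶜ := by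
    refine PT_mono fun η hη hη' => ?_
    exact circ_block (by omega) (by omega) (by omega) hη' hη
  rw [h3, h2] at h5
  linarith

end Pool.Agent.H83.Site
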