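import Pool.Agent.H83.SiteG.GDefs

/-! # Bounds for the two arms of a site; regularity of the critical one-arm probability -/

set_option autoImplicit false

open MeasureTheory ProbabilityTheory unitInterval

namespace Pool.Agent.H83.Site

open Pool.Agent.H89.Perc

/-- Opening a site costs at most a factor `1 / p`. -/
private theorem bt_update_true {p : I} (hp : (0 : ℝ) < p) (r : Bool) {E : Set Config}
    {s : Finset Edge} (hE : LocalOn s E) {v : TV} (hv : v.2.2 = false) :
    PT p r {η | Function.update η v true ∈ E} ≤ 1 / (p : ℝ) * PT p r E := by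
  have h1 : PT p r {η | Function.update η v true ∈ E} =
      Pr p {ω | Function.update ω v true ∈ {ω | full r ω ∈ E}} := by
    unfold PT
    congr 1
    ext ω
    simp only [Set.mem_ofPred_eq, full_update hv]
  have h2 := Pr_eq_update (p := p) (localOn_full r hE) v
  have h3 : 0 ≤ (1 - (p : ℝ)) * Pr p {ω | Function.update ω v false ∈ {ω | full r ω ∈ E}} :=
    mul_nonneg (by linarith [p.2.2]) Pr_nonneg
  rw [h1, one_div, ← div_eq_inv_mul, le_div_iff₀ hp]
  have h4 : PT p r E = Pr p {ω | full r ω ∈ E} := rfl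
  rw [h4]
  linarith

/-- Closing a site costs at most a factor `1 / (1 - p)`. -/
private theorem bt_update_false {p : I} (hp : (p : ℝ) < 1) (r : Bool) {E : Set Config}
    {s : Finset Edge} (hE : LocalOn s E) {v : TV} (hv : v.2.2 = false) :
    PT p r {η | Function.update η v false ∈ E} ≤ 1 / (1 - (p : ℝ)) * PT p r E := by
  have h1 : PT p r {η | Function.update η v false ∈ E} =
      Pr p {ω | Function.update ω v false ∈ {ω | full r ω ∈ E}} := by
    unfold PT
    congr 1
    ext ω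
    simp only [Set.mem_ofPred_eq, full_update hv]
  have h2 := Pr_eq_update (p := p) (localOn_full r hE) v
  have h3 : 0 ≤ (p : ℝ) * Pr p {ω | Function.update ω v true ∈ {ω | full r ω ∈ E}} :=
    mul_nonneg p.2.1 Pr_nonneg
  rw [h1, one_div, ← div_eq_inv_mul, le_div_iff₀ (by linarith)]
  have h4 : PT p r E = Pr p {ω | full r ω ∈ E} := rfl
  rw [h4]
  linarith

private theorem bt_zero {p : I} (r : Bool) : (p : ℝ) ≤ ab p r 0 0 := by
  have h2 := Pr_eq_update (p := p) (localOn_full r (localOn_AB 0 0 0 0)) oT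
  have h3 : 0 ≤ (1 - (p : ℝ)) *
      Pr p {ω | Function.update ω oT false ∈ {ω | full r ω ∈ AB 0 0 0 0}} :=
    mul_nonneg (by linarith [p.2.2]) Pr_nonneg
  have h4 : {ω : Config | Function.update ω oT true ∈ {ω | full r ω ∈ AB 0 0 0 0}} =
      Set.univ := by
    ext ω
    simp only [Set.mem_ofPred_eq, Set.mem_univ, iff_true]
    rw [full_update (v := oT) rfl]
    refine mem_AB_of (m := 0) (w := oT) ?_ (TConn.refl ?_ (by simp))
    · refine ⟨?_, rfl, ?_⟩
      · rw [oT, mem_TR_site]; simp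
      · simp [oT]
    · unfold bT
      rw [oT, mem_TR_site]; simp
  rw [h4, Pr_univ] at h2
  have h5 : ab p r 0 0 = Pr p {ω | full r ω ∈ AB 0 0 0 0} := rfl
  rw [h5]
  linarith

theorem PT_PArm_le {p : I} (hp : (0 : ℝ) < p) (r : Bool) (m : ℕ) {v : TV} (hv : v.2.2 = false) :
    PT p r (PArm m v) ≤ 1 / (p : ℝ) ^ 2 * ab p r 0 (nrmT v / 2 - 1) ^ 2 := by
  set s := nrmT v / 2 - 1 with hs
  have hp1 : (p : ℝ) ≤ 1 := p.2.2
  by_cases hs0 : s = 0
  · have h1 : (p : ℝ) ≤ ab p r 0 s := by rw [hs0]; exact bt_zero r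
    have h2 : 1 ≤ 1 / (p : ℝ) ^ 2 * ab p r 0 s ^ 2 := by
      rw [one_div, ← div_eq_inv_mul, le_div_iff₀ (by positivity), one_mul]
      exact pow_le_pow_left₀ hp.le h1 2
    exact PT_le_one.trans h2
  · have hnrm : 2 * s + 2 ≤ nrmT v := by omega
    have hbig : 2 * s + 2 ≤ v.1.natAbs ∨ 2 * s + 2 ≤ v.2.1.natAbs := by
      unfold nrmT at hnrm
      exact le_max_iff.1 hnrm
    have hvbox : v ∉ eRect (0 - (s : ℤ)) (0 + s) (0 - s) (0 + s) := by
      rw [mem_eRect]
      simp only [rect, Set.mem_ofPred_eq, src]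
      omega
    have hsub : PArm m v ⊆ AB 0 0 0 s ∩ {η | Function.update η v true ∈ AB v.1 v.2.1 0 s} := by
      intro η hη
      have hη' : TConn (Function.update η v true) (bT m) oT v := hη
      constructor
      · have h1 : Function.update η v true ∈ AB 0 0 0 s := by
          refine hη'.mem_AB (Nat.zero_le _) ?_ ?_
          · rw [oT, mem_TR_site]; simp
          · rw [fx_even hv, fy_even hv]
            omega
        refine localOn_AB 0 0 0 s _ _ (fun e he => ?_) h1
        rw [Function.update_of_ne]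
        rintro rfl
        exact hvbox he
      · refine hη'.symm.mem_AB (Nat.zero_le _) ?_ ?_
        · rw [mem_TR, fx_even hv, fy_even hv]
          push_cast
          omega
        · have e1 : fx oT = 0 := by simp [oT]
          have e2 : fy oT = 0 := by simp [oT]
          rw [e1, e2]
          omega
    have hloc : LocalOn (eRect (v.1 - s) (v.1 + s) (v.2.1 - s) (v.2.1 + s))
        {η | Function.update η v true ∈ AB v.1 v.2.1 0 s} :=
      ((localOn_AB v.1 v.2.1 0 s).update v true).mono (Finset.erase_subset _ _)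
    have hdis : Disjoint (eRect (0 - (s : ℤ)) (0 + s) (0 - s) (0 + s))
        (eRect (v.1 - s) (v.1 + s) (v.2.1 - s) (v.2.1 + s)) :=
      eRect_disjoint_x (by omega)
    have h1 := (PT_mono (p := p) (r := r) hsub).trans
      (le_of_eq (PT_indep (localOn_AB 0 0 0 s) hloc hdis))
    have h2 := bt_update_true hp r (localOn_AB v.1 v.2.1 0 s) hv
    rw [PT_AB] at h2
    have h3 : PT p r (AB 0 0 0 s) = ab p r 0 s := rfl
    rw [h3] at h1
    have h0 : 0 ≤ ab p r 0 s := ab_nonneg
    have h4 : 1 / (p : ℝ) ≤ 1 / (p : ℝ) ^ 2 := by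
      apply one_div_le_one_div_of_le (by positivity)
      nlinarith
    calc PT p r (PArm m v) ≤ _ := h1
      _ ≤ ab p r 0 s * (1 / (p : ℝ) * ab p r 0 s) := mul_le_mul_of_nonneg_left h2 h0
      _ = 1 / (p : ℝ) * ab p r 0 s ^ 2 := by ring
      _ ≤ _ := mul_le_mul_of_nonneg_right h4 (by positivity)

theorem PT_QArm_le {p : I} (hp : (p : ℝ) < 1) (r : Bool) (m : ℕ) {v : TV} (hv : v.2.2 = false) :
    PT p r (QArm m v) ≤ 1 / (1 - (p : ℝ)) * ab (σ p) (!r) 0 v.2.1.natAbs := by
  set n := v.2.1.natAbs with hn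
  have hsub : QArm m v ⊆
      {η | Function.update η v false ∈ {η | neg η ∈ AB v.1 v.2.1 0 n}} := by
    rintro η ⟨x, hx⟩
    refine hx.mem_AB (Nat.zero_le _) ?_ ?_
    · rw [mem_TR, fx_even hv, fy_even hv]
      push_cast
      omega
    · rw [fx_site, fy_site]
      omega
  have h1 := PT_mono (p := p) (r := r) hsub
  have h2 := bt_update_false hp r (Site.LocalOn.neg (localOn_AB v.1 v.2.1 0 n)) hv
  rw [PT_neg (localOn_AB v.1 v.2.1 0 n), PT_AB] at h2
  exact h1.trans h2

theorem ab_pos {p₀ : I} {r : Bool} (h : BXP p₀ r) (k : ℕ) : 0 < ab p₀ r 0 k := by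
  rcases Nat.eq_zero_or_pos k with hk | hk
  · rw [hk]
    exact h.pos.trans_le (bt_zero r)
  · obtain ⟨c2, hc2, H2⟩ := h 2
    obtain ⟨c', hc', HL⟩ := ab_lower hc2
    have h1 := HL p₀ r H2 p₀ le_rfl 0 k (by omega) hk
    refine lt_of_lt_of_le ?_ h1
    have hk0 : (0 : ℝ) < k := by exact_mod_cast hk
    positivity

/-- Regularity of the critical one-arm probability, including radius zero. -/
theorem ab_reg {p₀ : I} {r : Bool} (h : BXP p₀ r) : ∃ C : ℝ, 1 ≤ C ∧ ∀ k R : ℕ, 1 ≤ R → k ≤ R →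
    ab p₀ r 0 k ≤ C * Real.sqrt (R / (k + 1)) * ab p₀ r 0 R := by
  obtain ⟨c, hc, hext⟩ := arm_extT h
  set a1 := ab p₀ r 0 1 with ha1
  have ha1p : 0 < a1 := ab_pos h 1
  have ha1le : a1 ≤ 1 := ab_le_one
  set c' := min c 1 with hc'
  have hc'p : 0 < c' := lt_min hc one_pos
  have hc'1 : c' ≤ 1 := min_le_right _ _
  have hC1 : 1 ≤ 2 / (c' * a1) := by
    rw [le_div_iff₀ (by positivity)]
    nlinarith [mul_le_mul hc'1 ha1le ha1p.le zero_le_one]
  refine ⟨2 / (c' * a1), hC1, ?_⟩
  intro k R hR hkR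
  have hRp : (0 : ℝ) < R := by exact_mod_cast hR
  have hnn : ∀ j, 0 ≤ ab p₀ r 0 j := fun j => ab_nonneg
  -- bound in terms of `max k 1`
  have key : ∀ j : ℕ, 1 ≤ j → j ≤ R →
      ab p₀ r 0 j ≤ (1 / c') * Real.sqrt (R / j) * ab p₀ r 0 R := by
    intro j hj hjR
    have hjp : (0 : ℝ) < j := by exact_mod_cast hj
    have h1 := hext p₀ le_rfl j R hj hjR
    have h2 : c' * Real.sqrt (j / R) * ab p₀ r 0 j ≤ ab p₀ r 0 R := by
      refine le_trans ?_ h1
      refine mul_le_mul_of_nonneg_right ?_ (hnn j)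
      exact mul_le_mul_of_nonneg_right (min_le_left _ _) (Real.sqrt_nonneg _)
    have h3 : Real.sqrt (j / R) * Real.sqrt (R / j) = 1 := by
      rw [← Real.sqrt_mul (by positivity)]
      rw [show (j : ℝ) / R * (R / j) = 1 by field_simp, Real.sqrt_one]
    have h4 : 0 ≤ Real.sqrt (R / j) / c' := by positivity
    have h5 := mul_le_mul_of_nonneg_left h2 h4
    calc ab p₀ r 0 j = (Real.sqrt (j / R) * Real.sqrt (R / j)) * ab p₀ r 0 j := by
          rw [h3, one_mul]
      _ = Real.sqrt (R / j) / c' * (c' * Real.sqrt (j / R) * ab p₀ r 0 j) := by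
          field_simp
      _ ≤ Real.sqrt (R / j) / c' * ab p₀ r 0 R := h5
      _ = _ := by ring
  rcases Nat.eq_zero_or_pos k with hk | hk
  · subst hk
    have h1 := key 1 le_rfl hR
    have h2 : 1 ≤ (1 / (c' * a1)) * Real.sqrt (R / 1) * ab p₀ r 0 R := by
      have : 1 = a1 / a1 := by field_simp
      rw [this]
      rw [div_le_iff₀ ha1p]
      calc a1 ≤ 1 / c' * Real.sqrt (R / (1 : ℕ)) * ab p₀ r 0 R := h1
        _ = _ := by
          push_cast
          field_simp
    have h3 : (0 : ℝ) ≤ 1 / (c' * a1) * Real.sqrt (R / 1) * ab p₀ r 0 R := by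
      have := hnn R
      positivity
    have h0 : ab p₀ r 0 0 ≤ 1 := ab_le_one
    calc ab p₀ r 0 0 ≤ 1 := h0
      _ ≤ 2 * (1 / (c' * a1) * Real.sqrt (R / 1) * ab p₀ r 0 R) := by linarith
      _ = _ := by push_cast; ring_nf
  · have h1 := key k hk hkR
    have hkp : (0 : ℝ) < k := by exact_mod_cast hk
    have hk1 : (1 : ℝ) ≤ k := by exact_mod_cast hk
    refine h1.trans ?_
    refine mul_le_mul_of_nonneg_right ?_ (hnn R)
    have h2 : Real.sqrt (R / k) ≤ 2 * Real.sqrt (R / (k + 1)) := by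
      rw [show (2 : ℝ) = Real.sqrt 4 by
        rw [show (4 : ℝ) = 2 ^ 2 by norm_num, Real.sqrt_sq (by norm_num)],
        ← Real.sqrt_mul (by norm_num)]
      apply Real.sqrt_le_sqrt
      rw [div_le_iff₀ hkp]
      have : 4 * ((R : ℝ) / (k + 1)) * k = R * (4 * k / (k + 1)) := by ring
      rw [this]
      have : 1 ≤ 4 * (k : ℝ) / (k + 1) := by
        rw [le_div_iff₀ (by positivity)]; linarith
      nlinarith
    calc 1 / c' * Real.sqrt (R / k) ≤ 1 / c' * (2 * Real.sqrt (R / (k + 1))) := by gcongr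
      _ = 2 / (c' * 1) * Real.sqrt (R / (k + 1)) := by ring
      _ ≤ 2 / (c' * a1) * Real.sqrt (R / (k + 1)) := by
          gcongr

end Pool.Agent.H83.Site
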