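import Pool.Agent.H83.SiteG.GDefs

/-! # The sum of products of arm probabilities over a box -/

set_option autoImplicit false

namespace Pool.Agent.H83.Site

/-- The weight `(k+1)^{-3/4}`. -/
private noncomputable def sumT_wt (k : ℕ) : ℝ := ((k : ℝ) + 1) ^ (-(3 / 4) : ℝ)

private theorem sumT_wt_pos (k : ℕ) : 0 < sumT_wt k := by unfold sumT_wt; positivity

private theorem sumT_wt_step (t s : ℝ) (ht : 0 < t) (hs : 0 ≤ s) (h : t ^ 4 - s ^ 4 = 1) :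
    (t ^ 3)⁻¹ ≤ 4 * (t - s) := by
  have hts : s ≤ t := by
    by_contra hc
    push Not at hc
    have : t ^ 4 < s ^ 4 := by gcongr
    linarith
  rw [inv_le_iff_one_le_mul₀ (by positivity), ← h]
  have h1 : 0 ≤ t - s := by linarith
  have h2 : t ^ 4 - s ^ 4 = (t - s) * (t ^ 3 + t ^ 2 * s + t * s ^ 2 + s ^ 3) := by ring
  rw [h2]
  have h3 : t ^ 2 * s ≤ t ^ 3 := by
    calc t ^ 2 * s ≤ t ^ 2 * t := by gcongr
      _ = t ^ 3 := by ring
  have h4 : t * s ^ 2 ≤ t ^ 3 := by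
    calc t * s ^ 2 ≤ t * t ^ 2 := by gcongr
      _ = t ^ 3 := by ring
  have h5 : s ^ 3 ≤ t ^ 3 := by gcongr
  calc (t - s) * (t ^ 3 + t ^ 2 * s + t * s ^ 2 + s ^ 3) ≤ (t - s) * (4 * t ^ 3) := by
        gcongr; linarith
    _ = 4 * (t - s) * t ^ 3 := by ring

private theorem sumT_rpow_four (x : ℝ) (hx : 0 ≤ x) : (x ^ (1 / 4 : ℝ)) ^ 4 = x := by
  rw [← Real.rpow_natCast, ← Real.rpow_mul hx]
  norm_num

private theorem sumT_sum_wt (m : ℕ) :
    ∑ k ∈ Finset.range (m + 1), sumT_wt k ≤ 4 * ((m : ℝ) + 1) ^ (1 / 4 : ℝ) := by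
  induction m with
  | zero =>
    simp [sumT_wt]
  | succ m ih =>
    rw [Finset.sum_range_succ]
    set t : ℝ := (((m + 1 : ℕ) : ℝ) + 1) ^ (1 / 4 : ℝ) with ht
    set s : ℝ := ((m : ℝ) + 1) ^ (1 / 4 : ℝ) with hs
    have htp : 0 < t := by positivity
    have hsp : 0 ≤ s := by positivity
    have h4 : t ^ 4 - s ^ 4 = 1 := by
      rw [ht, hs, sumT_rpow_four _ (by positivity), sumT_rpow_four _ (by positivity)]
      push_cast
      ring
    have h5 := sumT_wt_step t s htp hsp h4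
    have h6 : sumT_wt (m + 1) = (t ^ 3)⁻¹ := by
      unfold sumT_wt
      rw [Real.rpow_neg (by positivity), ht, ← Real.rpow_natCast, ← Real.rpow_mul (by positivity)]
      norm_num
    rw [h6]
    linarith

private theorem sumT_sum_wt_int (m : ℕ) :
    ∑ x ∈ Finset.Icc (-(m : ℤ)) m, sumT_wt x.natAbs ≤
      2 * ∑ k ∈ Finset.range (m + 1), sumT_wt k := by
  have hsub : Finset.Icc (-(m : ℤ)) m ⊆ (Finset.range (m + 1)).image (fun k : ℕ => (k : ℤ)) ∪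
      (Finset.range (m + 1)).image (fun k : ℕ => -(k : ℤ)) := by
    intro x hx
    rw [Finset.mem_Icc] at hx
    rw [Finset.mem_union, Finset.mem_image, Finset.mem_image]
    by_cases h : 0 ≤ x
    · left; exact ⟨x.natAbs, by rw [Finset.mem_range]; omega, by omega⟩
    · right; exact ⟨x.natAbs, by rw [Finset.mem_range]; omega, by omega⟩
  calc ∑ x ∈ Finset.Icc (-(m : ℤ)) m, sumT_wt x.natAbs
      ≤ ∑ x ∈ (Finset.range (m + 1)).image (fun k : ℕ => (k : ℤ)) ∪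
        (Finset.range (m + 1)).image (fun k : ℕ => -(k : ℤ)), sumT_wt x.natAbs :=
        Finset.sum_le_sum_of_subset_of_nonneg hsub fun _ _ _ => (sumT_wt_pos _).le
    _ ≤ ∑ x ∈ (Finset.range (m + 1)).image (fun k : ℕ => (k : ℤ)), sumT_wt x.natAbs +
        ∑ x ∈ (Finset.range (m + 1)).image (fun k : ℕ => -(k : ℤ)), sumT_wt x.natAbs := by
        have := Finset.sum_union_inter (s₁ := (Finset.range (m + 1)).image (fun k : ℕ => (k : ℤ)))
          (s₂ := (Finset.range (m + 1)).image (fun k : ℕ => -(k : ℤ)))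
          (f := fun x : ℤ => sumT_wt x.natAbs)
        have h2 : 0 ≤ ∑ x ∈ (Finset.range (m + 1)).image (fun k : ℕ => (k : ℤ)) ∩
          (Finset.range (m + 1)).image (fun k : ℕ => -(k : ℤ)), sumT_wt x.natAbs :=
          Finset.sum_nonneg fun _ _ => (sumT_wt_pos _).le
        linarith
    _ = 2 * ∑ k ∈ Finset.range (m + 1), sumT_wt k := by
        rw [Finset.sum_image (by intro a _ b _ h; simpa using h),
          Finset.sum_image (by intro a _ b _ h; simpa using h)]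
        simp only [Int.natAbs_natCast, Int.natAbs_neg]
        ring

/-- Pointwise bound. -/
private theorem sumT_term_bound {C : ℝ} (hC : 1 ≤ C) {a b : ℕ → ℝ} (ha0 : ∀ k, 0 ≤ a k)
    (hb0 : ∀ k, 0 ≤ b k)
    (hra : ∀ k R : ℕ, 1 ≤ R → k ≤ R → a k ≤ C * Real.sqrt (R / (k + 1)) * a R)
    (hrb : ∀ k R : ℕ, 1 ≤ R → k ≤ R → b k ≤ C * Real.sqrt (R / (k + 1)) * b R)
    {m : ℕ} (hm : 1 ≤ m) {X Y : ℕ} (hX : X ≤ m) (hY : Y ≤ m) :
    a (max X Y / 2 - 1) ^ 2 * b Y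
      ≤ 4 * C ^ 3 * (m * Real.sqrt m) * (a m ^ 2 * b m) * (sumT_wt X * sumT_wt Y) := by
  set d := max X Y with hd
  have hmp : (0 : ℝ) < m := by exact_mod_cast hm
  have ha := ha0 m
  have hb := hb0 m
  have h1 := hra (d / 2 - 1) m hm (by omega)
  have h2 := hrb Y m hm hY
  have hd1 : ((d : ℝ) + 1) / 4 ≤ ((d / 2 - 1 : ℕ) : ℝ) + 1 := by
    have : d + 1 ≤ 4 * ((d / 2 - 1) + 1) := by omega
    have h' : ((d : ℝ) + 1) ≤ 4 * (((d / 2 - 1 : ℕ) : ℝ) + 1) := by exact_mod_cast this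
    linarith
  have e1 : a (d / 2 - 1) ^ 2 ≤ C ^ 2 * (4 * m / (d + 1)) * a m ^ 2 := by
    have h3 : a (d / 2 - 1) ≤ C * Real.sqrt (4 * m / (d + 1)) * a m := by
      have h0 : (m : ℝ) / (((d / 2 - 1 : ℕ) : ℝ) + 1) ≤ 4 * m / (d + 1) := by
        rw [div_le_div_iff₀ (by positivity) (by positivity)]
        nlinarith
      exact h1.trans (mul_le_mul_of_nonneg_right (mul_le_mul_of_nonneg_left
        (Real.sqrt_le_sqrt h0) (by linarith)) ha)
    calc a (d / 2 - 1) ^ 2 ≤ (C * Real.sqrt (4 * m / (d + 1)) * a m) ^ 2 := by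
          have := ha0 (d / 2 - 1)
          gcongr
      _ = C ^ 2 * Real.sqrt (4 * m / (d + 1)) ^ 2 * a m ^ 2 := by ring
      _ = _ := by rw [Real.sq_sqrt (by positivity)]
  have e2 : b Y ≤ C * (Real.sqrt m * ((Y : ℝ) + 1) ^ (-(1 / 2) : ℝ)) * b m := by
    refine h2.trans (le_of_eq ?_)
    rw [Real.sqrt_div (by positivity), Real.rpow_neg (by positivity), ← Real.sqrt_eq_rpow]
    ring
  have e3 : ((d : ℝ) + 1)⁻¹ ≤ sumT_wt X * ((Y : ℝ) + 1) ^ (-(1 / 4) : ℝ) := by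
    have hXd : ((X : ℝ) + 1) ≤ d + 1 := by
      have : X ≤ d := le_max_left _ _
      exact_mod_cast Nat.succ_le_succ this
    have hYd : ((Y : ℝ) + 1) ≤ d + 1 := by
      have : Y ≤ d := le_max_right _ _
      exact_mod_cast Nat.succ_le_succ this
    unfold sumT_wt
    have hsplit : ((d : ℝ) + 1)⁻¹
        = ((d : ℝ) + 1) ^ (-(3 / 4) : ℝ) * ((d : ℝ) + 1) ^ (-(1 / 4) : ℝ) := by
      rw [← Real.rpow_add (by positivity), ← Real.rpow_neg_one]
      norm_num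
    rw [hsplit]
    have g1 : ((d : ℝ) + 1) ^ (-(3 / 4) : ℝ) ≤ ((X : ℝ) + 1) ^ (-(3 / 4) : ℝ) :=
      Real.rpow_le_rpow_of_nonpos (by positivity) hXd (by norm_num)
    have g2 : ((d : ℝ) + 1) ^ (-(1 / 4) : ℝ) ≤ ((Y : ℝ) + 1) ^ (-(1 / 4) : ℝ) :=
      Real.rpow_le_rpow_of_nonpos (by positivity) hYd (by norm_num)
    exact mul_le_mul g1 g2 (by positivity) (by positivity)
  have e4 : ((Y : ℝ) + 1) ^ (-(1 / 4) : ℝ) * ((Y : ℝ) + 1) ^ (-(1 / 2) : ℝ) = sumT_wt Y := by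
    unfold sumT_wt
    rw [← Real.rpow_add (by positivity)]
    norm_num
  calc a (d / 2 - 1) ^ 2 * b Y
      ≤ (C ^ 2 * (4 * m / (d + 1)) * a m ^ 2)
        * (C * (Real.sqrt m * ((Y : ℝ) + 1) ^ (-(1 / 2) : ℝ)) * b m) :=
        mul_le_mul e1 e2 (hb0 _) (by positivity)
    _ = (4 * C ^ 3 * (m * Real.sqrt m) * (a m ^ 2 * b m))
        * (((d : ℝ) + 1)⁻¹ * ((Y : ℝ) + 1) ^ (-(1 / 2) : ℝ)) := by
        field_simp
    _ ≤ (4 * C ^ 3 * (m * Real.sqrt m) * (a m ^ 2 * b m))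
        * ((sumT_wt X * ((Y : ℝ) + 1) ^ (-(1 / 4) : ℝ)) * ((Y : ℝ) + 1) ^ (-(1 / 2) : ℝ)) := by
        gcongr
    _ = _ := by rw [mul_assoc (sumT_wt X), e4]

theorem arm_sumT {C : ℝ} (hC : 1 ≤ C) : ∃ C' > (0 : ℝ), ∀ a b : ℕ → ℝ, (∀ k, 0 ≤ a k) →
    (∀ k, 0 ≤ b k) →
    (∀ k R : ℕ, 1 ≤ R → k ≤ R → a k ≤ C * Real.sqrt (R / (k + 1)) * a R) →
    (∀ k R : ℕ, 1 ≤ R → k ≤ R → b k ≤ C * Real.sqrt (R / (k + 1)) * b R) →
    ∀ m : ℕ, 1 ≤ m →
      ∑ v ∈ sB m, (a (nrmT v / 2 - 1) ^ 2 * b v.2.1.natAbs) ≤ C' * (m : ℝ) ^ 2 * (a m ^ 2 * b m) := by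
  refine ⟨512 * C ^ 3, by positivity, ?_⟩
  intro a b ha0 hb0 hra hrb m hm
  have hmp : (1 : ℝ) ≤ m := by exact_mod_cast hm
  have ha := ha0 m
  have hb := hb0 m
  set K := 4 * C ^ 3 * (m * Real.sqrt m) * (a m ^ 2 * b m) with hK
  have hK0 : 0 ≤ K := by positivity
  set W := ∑ x ∈ Finset.Icc (-(m : ℤ)) m, sumT_wt x.natAbs with hW
  have hWle : W ≤ 8 * ((m : ℝ) + 1) ^ (1 / 4 : ℝ) := by
    have h1 := sumT_sum_wt_int m
    have h2 := sumT_sum_wt m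
    linarith
  have hW0 : 0 ≤ W := Finset.sum_nonneg fun _ _ => (sumT_wt_pos _).le
  have hterm : ∀ x ∈ Finset.Icc (-(m : ℤ)) m, ∀ y ∈ Finset.Icc (-(m : ℤ)) m,
      a (max x.natAbs y.natAbs / 2 - 1) ^ 2 * b y.natAbs
        ≤ K * (sumT_wt x.natAbs * sumT_wt y.natAbs) := by
    intro x hx y hy
    rw [Finset.mem_Icc] at hx hy
    exact sumT_term_bound hC ha0 hb0 hra hrb hm (by omega) (by omega)
  have hsum : ∑ v ∈ sB m, (a (nrmT v / 2 - 1) ^ 2 * b v.2.1.natAbs) ≤ K * W ^ 2 := by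
    unfold sB
    rw [Finset.sum_product]
    have hin : ∀ x ∈ Finset.Icc (-(m : ℤ)) m,
        ∑ z ∈ Finset.Icc (-(m : ℤ)) m ×ˢ ({false} : Finset Bool),
          (a (nrmT (x, z) / 2 - 1) ^ 2 * b (x, z).2.1.natAbs)
        ≤ K * (sumT_wt x.natAbs * W) := by
      intro x hx
      rw [Finset.sum_product]
      have : ∀ y ∈ Finset.Icc (-(m : ℤ)) m, ∑ c ∈ ({false} : Finset Bool),
          (a (nrmT (x, (y, c)) / 2 - 1) ^ 2 * b (x, (y, c)).2.1.natAbs)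
          ≤ K * (sumT_wt x.natAbs * sumT_wt y.natAbs) := by
        intro y hy
        rw [Finset.sum_singleton]
        exact hterm x hx y hy
      refine (Finset.sum_le_sum this).trans (le_of_eq ?_)
      rw [hW, Finset.mul_sum, Finset.mul_sum]
    refine (Finset.sum_le_sum hin).trans (le_of_eq ?_)
    rw [← Finset.mul_sum, ← Finset.sum_mul, pow_two]
  refine hsum.trans ?_
  have hW2 : W ^ 2 ≤ 128 * Real.sqrt m := by
    have h1 : W ^ 2 ≤ (8 * ((m : ℝ) + 1) ^ (1 / 4 : ℝ)) ^ 2 := by gcongr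
    have h2 : (((m : ℝ) + 1) ^ (1 / 4 : ℝ)) ^ 2 = Real.sqrt (m + 1) := by
      rw [← Real.rpow_natCast, ← Real.rpow_mul (by positivity), Real.sqrt_eq_rpow]
      norm_num
    have h3 : Real.sqrt ((m : ℝ) + 1) ≤ 2 * Real.sqrt m := by
      rw [show (2 : ℝ) = Real.sqrt 4 by
        rw [show (4 : ℝ) = 2 ^ 2 by norm_num, Real.sqrt_sq (by norm_num)],
        ← Real.sqrt_mul (by norm_num)]
      apply Real.sqrt_le_sqrt
      linarith
    calc W ^ 2 ≤ 64 * (((m : ℝ) + 1) ^ (1 / 4 : ℝ)) ^ 2 := by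
          rw [mul_pow] at h1; norm_num at h1 ⊢; exact h1
      _ = 64 * Real.sqrt (m + 1) := by rw [h2]
      _ ≤ 64 * (2 * Real.sqrt m) := by gcongr
      _ = _ := by ring
  have hs : Real.sqrt m * Real.sqrt m = m := Real.mul_self_sqrt (by positivity)
  calc K * W ^ 2 ≤ K * (128 * Real.sqrt m) := by gcongr
    _ = 512 * C ^ 3 * (m * (Real.sqrt m * Real.sqrt m)) * (a m ^ 2 * b m) := by rw [hK]; ring
    _ = 512 * C ^ 3 * (m : ℝ) ^ 2 * (a m ^ 2 * b m) := by rw [hs]; ring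

end Pool.Agent.H83.Site
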