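import Pool.Agent.H83.SiteG.KIArmT
import Pool.Agent.H83.SiteG.BoundsT
import Pool.Agent.H83.SiteG.SumT

/-! # Bound for the derivative of the one-arm probability near the critical point -/

set_option autoImplicit false

open MeasureTheory ProbabilityTheory unitInterval

namespace Pool.Agent.H83.Site

open Pool.Agent.H89.Perc

theorem deriv_boundT {p₀ : I} {r : Bool} (h1 : BXP p₀ r) (h2 : BXP (σ p₀) (!r)) :
    ∃ C > (0 : ℝ), ∃ δ > (0 : ℝ), ∀ m : ℕ, 1 ≤ m → ∀ p : I, |(p : ℝ) - p₀| ≤ δ →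
      (∀ k ≤ m, ab p r 0 k ≤ 2 * ab p₀ r 0 k) →
      (∀ k ≤ m, ab (σ p) (!r) 0 k ≤ 2 * ab (σ p₀) (!r) 0 k) →
      ∑ v ∈ sB m, pivot p (A0 r m) v ≤
        C * m * (ab p₀ r 0 m * Real.sqrt (ab p₀ r 0 m * ab (σ p₀) (!r) 0 m)) := by
  have hp0 : (0 : ℝ) < p₀ := h1.pos
  have hq0 : (0 : ℝ) < 1 - (p₀ : ℝ) := by
    have := h2.pos
    simpa [unitInterval.coe_symm_eq] using this
  obtain ⟨Ca, hCa, ha⟩ := ab_reg h1
  obtain ⟨Cb, hCb, hb⟩ := ab_reg h2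
  have hC0 : 1 ≤ max Ca Cb := hCa.trans (le_max_left _ _)
  obtain ⟨C', hC', hsum⟩ := arm_sumT hC0
  obtain ⟨κ, hκ, hκ1, hκ2⟩ : ∃ κ : ℝ, 0 < κ ∧ κ ≤ (p₀ : ℝ) / 2 ∧ κ ≤ (1 - (p₀ : ℝ)) / 2 :=
    ⟨min ((p₀ : ℝ) / 2) ((1 - (p₀ : ℝ)) / 2), lt_min (by linarith) (by linarith),
      min_le_left _ _, min_le_right _ _⟩
  refine ⟨Real.sqrt (16 * C' / κ ^ 5), Real.sqrt_pos.2 (by positivity), κ, hκ, ?_⟩
  intro m hm p hp k1 k2
  obtain ⟨hpl, hpu⟩ := abs_le.1 hp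
  have hpκ : κ ≤ (p : ℝ) := by linarith
  have hqκ : κ ≤ 1 - (p : ℝ) := by linarith
  have hpp : (0 : ℝ) < p := lt_of_lt_of_le hκ hpκ
  have hqp : (p : ℝ) < 1 := by linarith
  set a : ℕ → ℝ := fun k => ab p₀ r 0 k with ha_def
  set b : ℕ → ℝ := fun k => ab (σ p₀) (!r) 0 k with hb_def
  have ha0 : ∀ k, 0 ≤ a k := fun k => ab_nonneg
  have hb0 : ∀ k, 0 ≤ b k := fun k => ab_nonneg
  have hsum' := hsum a b ha0 hb0
    (fun k R hR hk => (ha k R hR hk).trans (by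
      have := ha0 R
      gcongr
      exact le_max_left _ _))
    (fun k R hR hk => (hb k R hR hk).trans (by
      have := hb0 R
      gcongr
      exact le_max_right _ _)) m hm
  have key := arm_keyT p r m
  set D := ∑ v ∈ sB m, pivot p (A0 r m) v with hD
  have hterm : ∀ v ∈ sB m, PT p r (PArm m v) * PT p r (QArm m v)
      ≤ 8 / κ ^ 3 * (a (nrmT v / 2 - 1) ^ 2 * b v.2.1.natAbs) := by
    intro v hv
    obtain ⟨hv1, hv2⟩ := mem_sB.1 hv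
    have hbox : v.1.natAbs ≤ m ∧ v.2.1.natAbs ≤ m := by
      obtain ⟨x, y, b'⟩ := v
      simp only at hv1
      subst hv1
      rw [bT, mem_TR_site] at hv2
      constructor <;> simp only <;> omega
    have hn : nrmT v ≤ m := max_le hbox.1 hbox.2
    have e1 := PT_PArm_le hpp r m hv1
    have e2 := PT_QArm_le hqp r m hv1
    have e3 : ab p r 0 (nrmT v / 2 - 1) ≤ 2 * a (nrmT v / 2 - 1) :=
      k1 (nrmT v / 2 - 1) (by omega)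
    have e4 : ab (σ p) (!r) 0 v.2.1.natAbs ≤ 2 * b v.2.1.natAbs := k2 v.2.1.natAbs hbox.2
    have e5 : PT p r (PArm m v) ≤ 4 / κ ^ 2 * a (nrmT v / 2 - 1) ^ 2 := by
      have e51 : ab p r 0 (nrmT v / 2 - 1) ^ 2 ≤ (2 * a (nrmT v / 2 - 1)) ^ 2 :=
        pow_le_pow_left₀ ab_nonneg e3 2
      have e52 : 1 / (p : ℝ) ^ 2 ≤ 1 / κ ^ 2 :=
        one_div_le_one_div_of_le (by positivity) (pow_le_pow_left₀ hκ.le hpκ 2)
      calc PT p r (PArm m v) ≤ 1 / (p : ℝ) ^ 2 * ab p r 0 (nrmT v / 2 - 1) ^ 2 := e1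
        _ ≤ 1 / κ ^ 2 * (2 * a (nrmT v / 2 - 1)) ^ 2 :=
          mul_le_mul e52 e51 (sq_nonneg _) (by positivity)
        _ = _ := by ring
    have e6 : PT p r (QArm m v) ≤ 2 / κ * b v.2.1.natAbs := by
      have e61 : 1 / (1 - (p : ℝ)) ≤ 1 / κ := one_div_le_one_div_of_le hκ hqκ
      calc PT p r (QArm m v) ≤ 1 / (1 - (p : ℝ)) * ab (σ p) (!r) 0 v.2.1.natAbs := e2
        _ ≤ 1 / κ * (2 * b v.2.1.natAbs) := mul_le_mul e61 e4 ab_nonneg (by positivity)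
        _ = _ := by ring
    have hbv := hb0 v.2.1.natAbs
    calc PT p r (PArm m v) * PT p r (QArm m v)
        ≤ (4 / κ ^ 2 * a (nrmT v / 2 - 1) ^ 2) * (2 / κ * b v.2.1.natAbs) :=
          mul_le_mul e5 e6 PT_nonneg (by positivity)
      _ = _ := by field_simp; ring
  have ham := ha0 m
  have hbm := hb0 m
  have hS : ∑ v ∈ sB m, PT p r (PArm m v) * PT p r (QArm m v)
      ≤ 8 / κ ^ 3 * (C' * (m : ℝ) ^ 2 * (a m ^ 2 * b m)) := by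
    refine (Finset.sum_le_sum hterm).trans ?_
    rw [← Finset.mul_sum]
    exact mul_le_mul_of_nonneg_left hsum' (by positivity)
  have hpq : κ ^ 2 ≤ (p : ℝ) * (1 - p) := by
    rw [sq]
    exact mul_le_mul hpκ hqκ hκ.le hpp.le
  have hD2 : κ ^ 2 * D ^ 2 ≤ κ ^ 2 * (16 * C' / κ ^ 5 * ((m : ℝ) ^ 2 * (a m ^ 3 * b m))) := by
    calc κ ^ 2 * D ^ 2 ≤ (p : ℝ) * (1 - p) * D ^ 2 :=
          mul_le_mul_of_nonneg_right hpq (sq_nonneg D)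
      _ ≤ ab p r 0 m * ∑ v ∈ sB m, PT p r (PArm m v) * PT p r (QArm m v) := key
      _ ≤ (2 * a m) * (8 / κ ^ 3 * (C' * (m : ℝ) ^ 2 * (a m ^ 2 * b m))) :=
          mul_le_mul (k1 m le_rfl) hS
            (Finset.sum_nonneg fun v _ => mul_nonneg PT_nonneg PT_nonneg) (by positivity)
      _ = _ := by field_simp; ring
  have hD3 : D ^ 2 ≤ 16 * C' / κ ^ 5 * ((m : ℝ) ^ 2 * (a m ^ 3 * b m)) :=
    le_of_mul_le_mul_left hD2 (by positivity)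
  have hsq : D ^ 2 ≤ (Real.sqrt (16 * C' / κ ^ 5) * m * (a m * Real.sqrt (a m * b m))) ^ 2 := by
    have e : (Real.sqrt (16 * C' / κ ^ 5) * m * (a m * Real.sqrt (a m * b m))) ^ 2
        = Real.sqrt (16 * C' / κ ^ 5) ^ 2 * ((m : ℝ) ^ 2 * (a m ^ 2 * Real.sqrt (a m * b m) ^ 2)) := by
      ring
    rw [e, Real.sq_sqrt (by positivity), Real.sq_sqrt (by positivity)]
    refine hD3.trans (le_of_eq ?_)
    ring
  exact le_of_sq_le_sq hsq (by positivity)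

/-- `m √(π π*)(m) ≤ C n √(π π*)(n)` for `m ≤ n`. -/
theorem mul_sqrt_mono {p₀ : I} {r : Bool} (h1 : BXP p₀ r) (h2 : BXP (σ p₀) (!r)) :
    ∃ C : ℝ, 1 ≤ C ∧ ∀ m n : ℕ, 1 ≤ m → m ≤ n →
      m * Real.sqrt (ab p₀ r 0 m * ab (σ p₀) (!r) 0 m) ≤
        C * (n * Real.sqrt (ab p₀ r 0 n * ab (σ p₀) (!r) 0 n)) := by
  obtain ⟨Ca, hCa, ha⟩ := ab_reg h1
  obtain ⟨Cb, hCb, hb⟩ := ab_reg h2
  refine ⟨Ca * Cb, by nlinarith, ?_⟩
  intro m n hm hmn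
  have hn : 1 ≤ n := hm.trans hmn
  have hmp : (0 : ℝ) < m := by exact_mod_cast hm
  have hnp : (0 : ℝ) < n := by exact_mod_cast hn
  have hmn' : (m : ℝ) ≤ n := by exact_mod_cast hmn
  have e1 := ha m n hn hmn
  have e2 := hb m n hn hmn
  have ham : 0 ≤ ab p₀ r 0 m := ab_nonneg
  have han : 0 ≤ ab p₀ r 0 n := ab_nonneg
  have hbm : 0 ≤ ab (σ p₀) (!r) 0 m := ab_nonneg
  have hbn : 0 ≤ ab (σ p₀) (!r) 0 n := ab_nonneg
  have hCab : 1 ≤ Ca * Cb := by nlinarith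
  have e3 : ab p₀ r 0 m * ab (σ p₀) (!r) 0 m ≤
      (Ca * Cb) * (n / (m + 1)) * (ab p₀ r 0 n * ab (σ p₀) (!r) 0 n) := by
    calc ab p₀ r 0 m * ab (σ p₀) (!r) 0 m
        ≤ (Ca * Real.sqrt (n / (m + 1)) * ab p₀ r 0 n) *
          (Cb * Real.sqrt (n / (m + 1)) * ab (σ p₀) (!r) 0 n) :=
          mul_le_mul e1 e2 hbm (by positivity)
      _ = (Ca * Cb) * (Real.sqrt (n / (m + 1)) * Real.sqrt (n / (m + 1))) *
          (ab p₀ r 0 n * ab (σ p₀) (!r) 0 n) := by ring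
      _ = _ := by rw [Real.mul_self_sqrt (by positivity)]
  have e4 : (m : ℝ) ^ 2 * (n / (m + 1)) ≤ (n : ℝ) ^ 2 := by
    rw [← mul_div_assoc, div_le_iff₀ (by positivity)]
    have h5 : (m : ℝ) ^ 2 ≤ n * (m + 1) := by nlinarith
    nlinarith
  refine le_of_sq_le_sq ?_ (by positivity)
  have e5 : ((m : ℝ) * Real.sqrt (ab p₀ r 0 m * ab (σ p₀) (!r) 0 m)) ^ 2 =
      (m : ℝ) ^ 2 * (ab p₀ r 0 m * ab (σ p₀) (!r) 0 m) := by
    rw [mul_pow, Real.sq_sqrt (by positivity)]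
  have e6 : (Ca * Cb * ((n : ℝ) * Real.sqrt (ab p₀ r 0 n * ab (σ p₀) (!r) 0 n))) ^ 2 =
      (Ca * Cb) ^ 2 * ((n : ℝ) ^ 2 * (ab p₀ r 0 n * ab (σ p₀) (!r) 0 n)) := by
    rw [mul_pow (Ca * Cb), mul_pow (n : ℝ), Real.sq_sqrt (by positivity)]
  rw [e5, e6]
  calc (m : ℝ) ^ 2 * (ab p₀ r 0 m * ab (σ p₀) (!r) 0 m)
      ≤ (m : ℝ) ^ 2 * ((Ca * Cb) * (n / (m + 1)) * (ab p₀ r 0 n * ab (σ p₀) (!r) 0 n)) := by
        gcongr
    _ = (Ca * Cb) * (((m : ℝ) ^ 2 * (n / (m + 1))) * (ab p₀ r 0 n * ab (σ p₀) (!r) 0 n)) := by ring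
    _ ≤ (Ca * Cb) * ((n : ℝ) ^ 2 * (ab p₀ r 0 n * ab (σ p₀) (!r) 0 n)) := by
        gcongr
    _ ≤ (Ca * Cb) ^ 2 * ((n : ℝ) ^ 2 * (ab p₀ r 0 n * ab (σ p₀) (!r) 0 n)) := by
        have : Ca * Cb ≤ (Ca * Cb) ^ 2 := by nlinarith
        gcongr

end Pool.Agent.H83.Site
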