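import Pool.Agent.H83.SiteG.GDefs
import Pool.Agent.H83.SiteG.BlockT
import Pool.Agent.Perc.BK

/-! # Lower bound for the truncated mean cluster size by a second moment argument -/

set_option autoImplicit false

open MeasureTheory ProbabilityTheory unitInterval

namespace Pool.Agent.H83.Site

open Pool.Agent.H89.Perc
open Pool.Agent.Perc (Ex ind ind_of ind_of_not ind_congr ind_nonneg ind_le_one)

/-- `x` is joined to the boundary of the box of half side `m` inside that box. -/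
def SecondT_To (m : ℕ) (x : TV) : Set Config := {η | ∃ u ∈ sph 0 0 m, TConn η (bT m) x u}

theorem SecondT_local_conn (m : ℕ) (x y : TV) : LocalOn (eT m) {η | TConn η (bT m) x y} := by
  intro η η' h hc
  exact hc.congr fun v hv => h v (bT_subset_eT hv)

theorem SecondT_local_To (m : ℕ) (x : TV) : LocalOn (eT m) (SecondT_To m x) := by
  rintro η η' h ⟨u, hu, hc⟩
  exact ⟨u, hu, hc.congr fun v hv => h v (bT_subset_eT hv)⟩

theorem SecondT_incr_To (m : ℕ) (x : TV) : Incr (SecondT_To m x) := by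
  rintro η η' h ⟨u, hu, hc⟩
  exact ⟨u, hu, hc.mono le_rfl fun v _ => h v⟩

/-- The open sites of the cluster of `x`. -/
noncomputable def SecondT_cl (r : Bool) (m : ℕ) (S : Finset Edge) (x : TV) : Finset Edge := by
  classical exact S.filter (fun v => v.2.2 = false ∧ TConn (full r (ofS S)) (bT m) x v)

theorem SecondT_mem_cl {r : Bool} {m : ℕ} {S : Finset Edge} {x v : TV} :
    v ∈ SecondT_cl r m S x ↔ v ∈ S ∧ v.2.2 = false ∧ TConn (full r (ofS S)) (bT m) x v := by
  classical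
  unfold SecondT_cl
  rw [Finset.mem_filter]

theorem SecondT_open_cl {r : Bool} {m : ℕ} {S : Finset Edge} {x v : TV}
    (h : TConn (full r (ofS S)) (bT m) x v) : full r (ofS (SecondT_cl r m S x)) v = true := by
  have ho := h.open_right
  by_cases hv : v.2.2 = true
  · simp only [full, hv, if_true] at ho ⊢
    exact ho
  · have hv' : v.2.2 = false := by simpa using hv
    simp only [full, hv', Bool.false_eq_true, if_false] at ho ⊢
    rw [ofS_eq_true] at ho ⊢
    exact SecondT_mem_cl.2 ⟨ho, hv', h⟩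

theorem SecondT_conn_cl {r : Bool} {m : ℕ} {S : Finset Edge} {x u : TV}
    (h : TConn (full r (ofS S)) (bT m) x u) :
    TConn (full r (ofS (SecondT_cl r m S x))) (bT m) x u := by
  refine h.induction_right (P := fun z => TConn (full r (ofS (SecondT_cl r m S x))) (bT m) x z)
    (TConn.refl h.mem_left (SecondT_open_cl (TConn.refl h.mem_left h.open_left))) ?_
  intro a b hxa hab ih
  exact ih.tail ⟨hab.1, hab.2.1, hab.2.2.1, SecondT_open_cl hxa, SecondT_open_cl (hxa.tail hab)⟩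

/-- Two vertices joined to the boundary by different clusters: BK inequality. -/
theorem SecondT_bk_pair (p : I) (r : Bool) (m : ℕ) (x y : TV) :
    PT p r ((SecondT_To m x ∩ SecondT_To m y) ∩ {η | TConn η (bT m) x y}ᶜ)
      ≤ PT p r (SecondT_To m x) * PT p r (SecondT_To m y) := by
  have hup : ∀ z, Pool.Agent.Perc.UpOn (eT m) (fun S => full r (ofS S) ∈ SecondT_To m z) :=
    fun z S T hST _ h => incr_full r (SecondT_incr_To m z) _ _ (ofS_mono hST) h
  have key := Pool.Agent.Perc.bk (p := (p : ℝ)) (F := eT m) p.2.1 p.2.2 (hup x) (hup y)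
  have e1 : PT p r ((SecondT_To m x ∩ SecondT_To m y) ∩ {η | TConn η (bT m) x y}ᶜ)
      = Ex (p : ℝ) (eT m) (ind (fun S => full r (ofS S) ∈
        (SecondT_To m x ∩ SecondT_To m y) ∩ {η | TConn η (bT m) x y}ᶜ)) :=
    Pr_eq_Ex (localOn_full r (((SecondT_local_To m x).inter (SecondT_local_To m y)).inter
      (SecondT_local_conn m x y).compl)) p
  have e2 : ∀ z, PT p r (SecondT_To m z)
      = Ex (p : ℝ) (eT m) (ind (fun S => full r (ofS S) ∈ SecondT_To m z)) := fun z =>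
    Pr_eq_Ex (localOn_full r (SecondT_local_To m z)) p
  rw [e1, e2 x, e2 y]
  refine le_trans ?_ key
  unfold Pool.Agent.Perc.Pr
  refine Pool.Agent.Perc.Ex_mono p.2.1 p.2.2 fun S _ => Pool.Agent.Perc.ind_le_ind ?_
  rintro ⟨⟨⟨u, hu, h1⟩, ⟨v, hv, h2⟩⟩, h3⟩
  refine ⟨SecondT_cl r m S x, SecondT_cl r m S y, ?_, ?_, ?_, ⟨u, hu, SecondT_conn_cl h1⟩,
    ⟨v, hv, SecondT_conn_cl h2⟩⟩
  · intro e he; exact (SecondT_mem_cl.1 he).1
  · intro e he; exact (SecondT_mem_cl.1 he).1
  · rw [Finset.disjoint_left]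
    intro e he he'
    exact h3 ((SecondT_mem_cl.1 he).2.2.trans (SecondT_mem_cl.1 he').2.2.symm)

theorem SecondT_card_sB (n : ℕ) : ((sB n).card : ℝ) = (2 * n + 1) ^ 2 := by
  unfold sB
  rw [Finset.card_product, Finset.card_product, Int.card_Icc, Finset.card_singleton]
  have : ((n : ℤ) + 1 - -(n : ℤ)).toNat = 2 * n + 1 := by omega
  rw [this]
  push_cast
  ring

theorem SecondT_site {m : ℕ} {x : TV} (h : x ∈ sB m) :
    x.2.2 = false ∧ -(m : ℤ) ≤ x.1 ∧ x.1 ≤ m ∧ -(m : ℤ) ≤ x.2.1 ∧ x.2.1 ≤ m := by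
  rw [mem_sB] at h
  obtain ⟨h1, h2⟩ := h
  refine ⟨h1, ?_⟩
  unfold bT at h2
  rw [mem_TR, fx_even h1, fy_even h1] at h2
  omega

theorem SecondT_mem_sB {m : ℕ} {x : TV} (h1 : x.2.2 = false)
    (h2 : -(m : ℤ) ≤ x.1 ∧ x.1 ≤ m ∧ -(m : ℤ) ≤ x.2.1 ∧ x.2.1 ≤ m) : x ∈ sB m := by
  rw [mem_sB]
  refine ⟨h1, ?_⟩
  unfold bT
  rw [mem_TR, fx_even h1, fy_even h1]
  omega

/-- Second moment lower bound for the number of connected pairs. -/
theorem SecondT_pairs (p : I) (r : Bool) (n m : ℕ) :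
    (1 - PT p r (AB 0 0 n m)) * (∑ x ∈ sB n, PT p r (SecondT_To m x)) ^ 2
      ≤ ∑ x ∈ sB n, ∑ y ∈ sB n, PT p r {η | TConn η (bT m) x y} := by
  set A : TV → Finset Edge → ℝ := fun x => ind (fun S => full r (ofS S) ∈ SecondT_To m x) with hA
  set M := ∑ x ∈ sB n, PT p r (SecondT_To m x) with hM
  set X : Finset Edge → ℝ := fun S => ∑ x ∈ sB n, A x S with hX
  have hPrA : ∀ x, PT p r (SecondT_To m x) = Ex (p : ℝ) (eT m) (A x) := fun x =>
    Pr_eq_Ex (localOn_full r (SecondT_local_To m x)) p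
  have hEX : Ex (p : ℝ) (eT m) X = M := by
    rw [hX, Pool.Agent.Perc.Ex_sum, hM]
    exact Finset.sum_congr rfl fun x _ => (hPrA x).symm
  have hEX2 : Ex (p : ℝ) (eT m) (fun S => X S ^ 2)
      = ∑ x ∈ sB n, ∑ y ∈ sB n, PT p r (SecondT_To m x ∩ SecondT_To m y) := by
    have : Ex (p : ℝ) (eT m) (fun S => X S ^ 2)
        = Ex (p : ℝ) (eT m) (fun S => ∑ x ∈ sB n, ∑ y ∈ sB n, A x S * A y S) := by
      refine Pool.Agent.Perc.Ex_congr fun S _ => ?_
      simp only [hX]
      rw [pow_two, Finset.sum_mul_sum]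
    rw [this, Pool.Agent.Perc.Ex_sum]
    refine Finset.sum_congr rfl fun x _ => ?_
    rw [Pool.Agent.Perc.Ex_sum]
    refine Finset.sum_congr rfl fun y _ => ?_
    have e1 : PT p r (SecondT_To m x ∩ SecondT_To m y)
        = Ex (p : ℝ) (eT m) (ind (fun S => full r (ofS S) ∈ SecondT_To m x ∩ SecondT_To m y)) :=
      Pr_eq_Ex (localOn_full r ((SecondT_local_To m x).inter (SecondT_local_To m y))) p
    rw [e1]
    refine Pool.Agent.Perc.Ex_congr fun S _ => ?_
    simp only [hA]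
    rw [Pool.Agent.Perc.ind_mul]
    rfl
  -- variance bound
  have hvar : (1 - PT p r (AB 0 0 n m)) * M ^ 2 ≤ Ex (p : ℝ) (eT m) (fun S => X S ^ 2) - M ^ 2 := by
    have hl : LocalOn (eT m) (AB 0 0 n m) := by
      have h := localOn_AB 0 0 n m
      have e : eRect (0 - (m : ℤ)) (0 + m) (0 - m) (0 + m) = eT m := by
        unfold eT; congr 1 <;> ring
      rwa [e] at h
    have h1 : PT p r (AB 0 0 n m)ᶜ = 1 - PT p r (AB 0 0 n m) := PT_compl hl
    have h1' : PT p r (AB 0 0 n m)ᶜ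
        = Ex (p : ℝ) (eT m) (ind (fun S => full r (ofS S) ∈ (AB 0 0 n m)ᶜ)) :=
      Pr_eq_Ex (localOn_full r hl.compl) p
    rw [← h1, h1']
    have h2 : Ex (p : ℝ) (eT m) (fun S => (X S - M) ^ 2)
        = Ex (p : ℝ) (eT m) (fun S => X S ^ 2) - M ^ 2 := by
      have e1 : Ex (p : ℝ) (eT m) (fun S => (X S - M) ^ 2)
          = Ex (p : ℝ) (eT m) (fun S => (X S ^ 2 - (2 * M) * X S) + M ^ 2) :=
        Pool.Agent.Perc.Ex_congr fun S _ => by ring
      rw [e1, Pool.Agent.Perc.Ex_add, Pool.Agent.Perc.Ex_sub, Pool.Agent.Perc.Ex_const_mul, hEX,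
        Pool.Agent.Perc.Ex_const]
      ring
    rw [← h2, ← Pool.Agent.Perc.Ex_mul_const]
    refine Pool.Agent.Perc.Ex_mono p.2.1 p.2.2 fun S _ => ?_
    by_cases hS : full r (ofS S) ∈ (AB 0 0 n m)ᶜ
    · have hX0 : X S = 0 := by
        simp only [hX]
        refine Finset.sum_eq_zero fun x hx => ?_
        refine ind_of_not (A := fun S => full r (ofS S) ∈ SecondT_To m x) ?_
        rintro ⟨u, hu, hc⟩
        refine hS ⟨x, ?_, u, hu, ?_⟩
        · have h := SecondT_site hx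
          rw [mem_TR, fx_even h.1, fy_even h.1]
          omega
        · have hb : TR (0 - (m : ℤ)) (0 + m) (0 - m) (0 + m) = bT m := by
            unfold bT; congr 1 <;> ring
          rw [hb]; exact hc
      rw [hX0, ind_of (A := fun S => full r (ofS S) ∈ (AB 0 0 n m)ᶜ) hS]
      apply le_of_eq
      ring
    · rw [ind_of_not (A := fun S => full r (ofS S) ∈ (AB 0 0 n m)ᶜ) hS, zero_mul]
      positivity
  refine hvar.trans ?_
  rw [hEX2, hM, pow_two, Finset.sum_mul_sum, ← Finset.sum_sub_distrib]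
  refine Finset.sum_le_sum fun x _ => ?_
  rw [← Finset.sum_sub_distrib]
  refine Finset.sum_le_sum fun y _ => ?_
  have h1 := SecondT_bk_pair p r m x y
  have h2 : PT p r (SecondT_To m x ∩ SecondT_To m y) ≤ PT p r {η | TConn η (bT m) x y}
      + PT p r ((SecondT_To m x ∩ SecondT_To m y) ∩ {η | TConn η (bT m) x y}ᶜ) := by
    refine (PT_mono ?_).trans PT_union_le
    intro η hη
    by_cases h : η ∈ {η | TConn η (bT m) x y}
    · exact Or.inl h
    · exact Or.inr ⟨hη, h⟩
  linarith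

theorem SecondT_conn_le (p : I) (r : Bool) {n m : ℕ} {x y : TV} (hx : x ∈ sB n) :
    PT p r {η | TConn η (bT m) x y}
      ≤ PT p r {η | TConn η (bT (m + n)) oT (y.1 - x.1, y.2.1 - x.2.1, y.2.2)} := by
  have hx' := SecondT_site hx
  rw [← PT_comp (p := p) (r := r) (SecondT_local_conn (m + n) oT (y.1 - x.1, y.2.1 - x.2.1, y.2.2))
    (shf_injective x.1 x.2.1).injOn (fun _ => rfl)]
  refine PT_mono ?_
  intro η hη
  show TConn (fun v => η (shf x.1 x.2.1 v)) (bT (m + n)) oT (y.1 - x.1, y.2.1 - x.2.1, y.2.2)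
  unfold bT
  rw [tconn_shf]
  have e1 : shf x.1 x.2.1 oT = x := by
    obtain ⟨a, b, c⟩ := x
    have hc : c = false := hx'.1
    subst hc
    simp [shf, oT]
  have e2 : shf x.1 x.2.1 (y.1 - x.1, y.2.1 - x.2.1, y.2.2) = y := by
    simp [shf]
  rw [e1, e2]
  have hη' : TConn η (bT m) x y := hη
  refine hη'.mono_set ?_
  unfold bT
  refine TR_mono ?_ ?_ ?_ ?_ <;> push_cast <;> omega

theorem SecondT_arm_le (p : I) (r : Bool) {n m : ℕ} {x : TV} (hx : x ∈ sB n) (hnm : n ≤ m) :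
    ab p r 0 (m + n) ≤ PT p r (SecondT_To m x) := by
  have hx' := SecondT_site hx
  rw [← PT_AB p r x.1 x.2.1 0 (m + n)]
  refine PT_mono ?_
  rintro η ⟨u, hu, w, hw, hc⟩
  have hux : u = x := by
    obtain ⟨a, b, c⟩ := u
    obtain ⟨a', b', c'⟩ := x
    have hc' : c' = false := hx'.1
    subst hc'
    cases c
    · rw [mem_TR_site] at hu
      simp only at hu
      have h1 : a = a' := by omega
      have h2 : b = b' := by omega
      rw [h1, h2]
    · rw [mem_TR_cen] at hu; simp only at hu; omega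
  subst hux
  obtain ⟨z, hz, hc'⟩ := hc.to_sph (x := 0) (y := 0) (n := m)
    (by rw [mem_TR, fx_even hx'.1, fy_even hx'.1]; omega)
    (by
      obtain ⟨h1, h2, h3⟩ := hw
      rw [fx_even h2, fy_even h2]
      push_cast at h3
      omega)
  refine ⟨z, hz, ?_⟩
  have hb : TR (0 - (m : ℤ)) (0 + m) (0 - m) (0 + m) = bT m := by
    unfold bT; congr 1 <;> ring
  rw [hb] at hc'
  exact hc'.mono_set Set.inter_subset_right

theorem trunc_lowerT {p₀ : I} {r : Bool} (h : BXP (σ p₀) (!r)) :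
    ∃ c > (0 : ℝ), ∀ n : ℕ, 1 ≤ n → ∀ q : I, q ≤ p₀ →
      c * (n : ℝ) ^ 2 * ab q r 0 (5 * n + 4) ^ 2
        ≤ ∑ z ∈ sB (2 * n), PT q r {η | TConn η (bT (5 * n + 4)) oT z} := by
  obtain ⟨c, hc, hbox⟩ := ab_block h
  refine ⟨4 * c, by positivity, ?_⟩
  intro n hn q hq
  set m := 4 * (n + 1) with hm
  have hrn : m + n = 5 * n + 4 := by omega
  rw [← hrn]
  set T := ∑ z ∈ sB (2 * n), PT q r {η | TConn η (bT (m + n)) oT z} with hT
  have h1 : PT q r (AB 0 0 n m) ≤ 1 - c :=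
    (ab_mono_param r n m hq).trans (hbox n m le_rfl)
  have h2 := SecondT_pairs q r n m
  have h3 : ∑ x ∈ sB n, ∑ y ∈ sB n, PT q r {η | TConn η (bT m) x y} ≤ (sB n).card * T := by
    rw [← nsmul_eq_mul]
    refine Finset.sum_le_card_nsmul _ _ _ fun x hx => ?_
    have hx' := SecondT_site hx
    calc ∑ y ∈ sB n, PT q r {η | TConn η (bT m) x y}
        ≤ ∑ y ∈ sB n, PT q r {η | TConn η (bT (m + n)) oT (y.1 - x.1, y.2.1 - x.2.1, y.2.2)} :=
          Finset.sum_le_sum fun y _ => SecondT_conn_le q r hx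
      _ = ∑ z ∈ (sB n).image (fun y : TV => ((y.1 - x.1, y.2.1 - x.2.1, y.2.2) : TV)),
            PT q r {η | TConn η (bT (m + n)) oT z} := by
          rw [Finset.sum_image]
          intro a _ b _ hab
          simp only [Prod.mk.injEq, sub_left_inj] at hab
          exact Prod.ext hab.1 (Prod.ext hab.2.1 hab.2.2)
      _ ≤ T := by
          refine Finset.sum_le_sum_of_subset_of_nonneg ?_ fun _ _ _ => PT_nonneg
          intro z hz
          obtain ⟨y, hy, rfl⟩ := Finset.mem_image.1 hz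
          have hy' := SecondT_site hy
          refine SecondT_mem_sB hy'.1 ?_
          simp only
          push_cast
          omega
  have h4 : ((sB n).card : ℝ) * ab q r 0 (m + n) ≤ ∑ x ∈ sB n, PT q r (SecondT_To m x) := by
    rw [← nsmul_eq_mul]
    exact Finset.card_nsmul_le_sum _ _ _ fun x hx => SecondT_arm_le q r hx (by omega)
  have ha := ab_nonneg (p := q) (r := r) (k := 0) (n := m + n)
  have hcard : (4 : ℝ) * n ^ 2 ≤ (sB n).card := by
    rw [SecondT_card_sB]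
    have : (0 : ℝ) ≤ n := by positivity
    nlinarith
  have hcp : (0 : ℝ) < (sB n).card := by
    rw [SecondT_card_sB]; positivity
  have h5 : c * (((sB n).card : ℝ) * ab q r 0 (m + n)) ^ 2 ≤ (sB n).card * T := by
    calc c * (((sB n).card : ℝ) * ab q r 0 (m + n)) ^ 2
        ≤ (1 - PT q r (AB 0 0 n m)) * (∑ x ∈ sB n, PT q r (SecondT_To m x)) ^ 2 := by
          refine mul_le_mul (by linarith) (by gcongr) (by positivity) (by linarith)
      _ ≤ _ := h2.trans h3
  have h6 : c * ((sB n).card : ℝ) * ab q r 0 (m + n) ^ 2 ≤ T := by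
    have : ((sB n).card : ℝ) * (c * ((sB n).card : ℝ) * ab q r 0 (m + n) ^ 2) ≤ (sB n).card * T := by
      calc _ = c * (((sB n).card : ℝ) * ab q r 0 (m + n)) ^ 2 := by ring
        _ ≤ _ := h5
    exact le_of_mul_le_mul_left this hcp
  calc 4 * c * (n : ℝ) ^ 2 * ab q r 0 (m + n) ^ 2 = c * (4 * n ^ 2) * ab q r 0 (m + n) ^ 2 := by ring
    _ ≤ c * ((sB n).card : ℝ) * ab q r 0 (m + n) ^ 2 := by gcongr
    _ ≤ T := h6

end Pool.Agent.H83.Site
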