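import Pool.Agent.H83.SiteG.WindowT
import Pool.Agent.H83.SiteG.SecondT

/-! # The product inequality for the truncated mean cluster sizes -/

set_option autoImplicit false

open MeasureTheory ProbabilityTheory unitInterval

namespace Pool.Agent.H83.Site

open Pool.Agent.H89.Perc

/-- The truncated mean cluster size. -/
noncomputable def tsz (p : I) (r : Bool) (n : ℕ) : ℝ :=
  ∑ z ∈ sB (2 * n), PT p r {η | TConn η (bT (5 * n + 4)) oT z}

/-- Choice of the scale. -/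
theorem finalB_scale {a b : ℕ → ℝ} (ha : ∀ n, 0 < a n) (hb : ∀ n, 0 < b n) {C : ℝ} (hC : 0 < C)
    (ra : ∀ R : ℕ, 1 ≤ R → a 0 ≤ C * Real.sqrt R * a R)
    (rb : ∀ R : ℕ, 1 ≤ R → b 0 ≤ C * Real.sqrt R * b R) {x c1 : ℝ} (hx : 0 < x) (hc1 : 0 < c1)
    (h1 : ((5 * 1 + 4 : ℕ) : ℝ) * Real.sqrt (a (5 * 1 + 4) * b (5 * 1 + 4)) * x ≤ c1) :
    ∃ n : ℕ, 1 ≤ n ∧ ((5 * n + 4 : ℕ) : ℝ) * Real.sqrt (a (5 * n + 4) * b (5 * n + 4)) * x ≤ c1 ∧
      c1 < ((5 * (n + 1) + 4 : ℕ) : ℝ) *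
        Real.sqrt (a (5 * (n + 1) + 4) * b (5 * (n + 1) + 4)) * x := by
  classical
  have hex : ∃ n : ℕ, c1 < ((5 * (n + 1) + 4 : ℕ) : ℝ) *
      Real.sqrt (a (5 * (n + 1) + 4) * b (5 * (n + 1) + 4)) * x := by
    have hs0 : 0 < Real.sqrt (a 0 * b 0) := Real.sqrt_pos.2 (mul_pos (ha 0) (hb 0))
    obtain ⟨N, hN⟩ := exists_nat_gt ((c1 * C / (Real.sqrt (a 0 * b 0) * x)) ^ 2)
    refine ⟨N, ?_⟩
    set R := 5 * (N + 1) + 4 with hR
    have hR1 : 1 ≤ R := by omega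
    have hRp : (0 : ℝ) < R := by exact_mod_cast hR1
    have h2 := ra R hR1
    have h3 := rb R hR1
    have hsR : 0 < Real.sqrt (R : ℝ) := Real.sqrt_pos.2 hRp
    have h4 : Real.sqrt (a 0 * b 0) ≤ C * Real.sqrt R * Real.sqrt (a R * b R) := by
      have h5 : a 0 * b 0 ≤ (C * Real.sqrt R) ^ 2 * (a R * b R) := by
        calc a 0 * b 0 ≤ (C * Real.sqrt R * a R) * (C * Real.sqrt R * b R) :=
              mul_le_mul h2 h3 (hb 0).le (by have := ha R; positivity)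
          _ = _ := by ring
      calc Real.sqrt (a 0 * b 0) ≤ Real.sqrt ((C * Real.sqrt R) ^ 2 * (a R * b R)) :=
            Real.sqrt_le_sqrt h5
        _ = C * Real.sqrt R * Real.sqrt (a R * b R) := by
            rw [Real.sqrt_mul (by positivity), Real.sqrt_sq (by positivity)]
    have h6 : Real.sqrt R * Real.sqrt R = R := Real.mul_self_sqrt hRp.le
    have h7 : c1 * C / (Real.sqrt (a 0 * b 0) * x) < Real.sqrt R := by
      apply Real.lt_sqrt_of_sq_lt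
      have : (N : ℝ) ≤ R := by exact_mod_cast (by omega : N ≤ R)
      linarith
    rw [div_lt_iff₀ (by positivity)] at h7
    have h8 : Real.sqrt R * (Real.sqrt (a 0 * b 0) * x) ≤
        C * ((R : ℝ) * Real.sqrt (a R * b R) * x) := by
      calc Real.sqrt R * (Real.sqrt (a 0 * b 0) * x)
          ≤ Real.sqrt R * ((C * Real.sqrt R * Real.sqrt (a R * b R)) * x) := by gcongr
        _ = C * ((Real.sqrt R * Real.sqrt R) * Real.sqrt (a R * b R) * x) := by ring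
        _ = _ := by rw [h6]
    have h9 : C * c1 < C * ((R : ℝ) * Real.sqrt (a R * b R) * x) := by linarith
    exact lt_of_mul_lt_mul_left h9 hC.le
  set n := Nat.find hex with hn
  have hn1 := Nat.find_spec hex
  have hnpos : 1 ≤ n := by
    by_contra hc
    have h0 : n = 0 := by omega
    rw [← hn, h0] at hn1
    exact absurd hn1 (not_lt.2 h1)
  refine ⟨n, hnpos, ?_, hn1⟩
  have := Nat.find_min hex (m := n - 1) (by omega)
  rw [show n - 1 + 1 = n by omega] at this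
  exact not_lt.1 this

theorem product_sigma {p₀ : I} {r : Bool} (h1 : BXP p₀ r) (h2 : BXP (σ p₀) (!r)) :
    ∃ c > (0 : ℝ), ∃ δ > (0 : ℝ), ∀ p q : I, ∀ h : ℝ, 0 < h → h ≤ δ → (p : ℝ) = p₀ - h →
      (q : ℝ) = 1 - p₀ - h → ∃ n : ℕ, 1 ≤ n ∧ c / h ^ 4 ≤ tsz p r n * tsz q (!r) n := by
  have h1' : BXP (σ (σ p₀)) (!!r) := by rw [σσ, Bool.not_not]; exact h1
  obtain ⟨cw, hcw, W1⟩ := windowT h1 h2
  obtain ⟨cw', hcw', W2⟩ := windowT h2 h1'
  obtain ⟨ct, hct, T1⟩ := trunc_lowerT (p₀ := p₀) (r := r) h2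
  obtain ⟨ct', hct', T2⟩ := trunc_lowerT (p₀ := σ p₀) (r := !r) h1'
  obtain ⟨Ca, hCa, Ra⟩ := ab_reg h1
  obtain ⟨Cb, hCb, Rb⟩ := ab_reg h2
  rw [σσ, Bool.not_not] at W2
  set a : ℕ → ℝ := fun n => ab p₀ r 0 n with hadef
  set b : ℕ → ℝ := fun n => ab (σ p₀) (!r) 0 n with hbdef
  have ha : ∀ n, 0 < a n := fun n => ab_pos h1 n
  have hb : ∀ n, 0 < b n := fun n => ab_pos h2 n
  set C := max Ca Cb with hCdef
  have hC0 : 0 < C := lt_of_lt_of_le (by linarith) (le_max_left Ca Cb)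
  have reg : ∀ (D : ℝ), 0 ≤ D → D ≤ C → ∀ (f : ℕ → ℝ), (∀ n, 0 < f n) →
      (∀ k R : ℕ, 1 ≤ R → k ≤ R → f k ≤ D * Real.sqrt (R / (k + 1)) * f R) →
      ∀ R : ℕ, 1 ≤ R → f 0 ≤ C * Real.sqrt R * f R := by
    intro D hD0 hD f hf hreg R hR
    have := hreg 0 R hR (Nat.zero_le _)
    simp only [Nat.cast_zero, zero_add, div_one] at this
    refine this.trans ?_
    have h0 := (hf R).le
    gcongr
  have ra := reg Ca (by linarith) (le_max_left _ _) a ha (fun k R => Ra k R)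
  have rb := reg Cb (by linarith) (le_max_right _ _) b hb (fun k R => Rb k R)
  set c1 := min cw cw' with hc1def
  have hc1 : 0 < c1 := lt_min hcw hcw'
  set g9 : ℝ := ((5 * 1 + 4 : ℕ) : ℝ) * Real.sqrt (a (5 * 1 + 4) * b (5 * 1 + 4)) with hg9
  have hg9p : 0 < g9 := by
    have := ha (5 * 1 + 4)
    have := hb (5 * 1 + 4)
    positivity
  refine ⟨ct * ct' * (c1 / 14) ^ 4 / 16, by positivity, c1 / g9, by positivity, ?_⟩
  intro p q h hh hhδ hp hq
  have hstart : g9 * h ≤ c1 := by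
    rw [le_div_iff₀ hg9p] at hhδ
    linarith
  obtain ⟨n, hn, hn1, hn2⟩ := finalB_scale ha hb hC0 ra rb hh hc1 hstart
  refine ⟨n, hn, ?_⟩
  set R := 5 * n + 4 with hR
  have hnp : (1 : ℝ) ≤ n := by exact_mod_cast hn
  have hRp : (0 : ℝ) < R := by
    have : 0 < R := by omega
    exact_mod_cast this
  have haR := ha R
  have hbR := hb R
  set s : ℝ := Real.sqrt (a R * b R) with hs
  have hsp : 0 < s := Real.sqrt_pos.2 (mul_pos haR hbR)
  have hle1 : p ≤ p₀ := by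
    change (p : ℝ) ≤ p₀
    rw [hp]; linarith
  have hle2 : q ≤ σ p₀ := by
    change (q : ℝ) ≤ 1 - p₀
    rw [hq]; linarith
  have hσ : ((σ p₀ : I) : ℝ) = 1 - p₀ := rfl
  have w1 : a R / 2 ≤ ab p r 0 R := by
    refine W1 R (by omega) p hle1 ?_
    have hd : (p₀ : ℝ) - p = h := by rw [hp]; ring
    rw [hd, le_div_iff₀ (by positivity)]
    calc h * (R * s) = R * s * h := by ring
      _ ≤ c1 := hn1
      _ ≤ cw := min_le_left _ _
  have w2 : b R / 2 ≤ ab q (!r) 0 R := by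
    refine W2 R (by omega) q hle2 ?_
    have hd : ((σ p₀ : I) : ℝ) - q = h := by rw [hσ, hq]; ring
    have hcomm : Real.sqrt (ab (σ p₀) (!r) 0 R * ab p₀ r 0 R) = s := by
      rw [hs, mul_comm]
    rw [hd, hcomm, le_div_iff₀ (by positivity)]
    calc h * (R * s) = R * s * h := by ring
      _ ≤ c1 := hn1
      _ ≤ cw' := min_le_right _ _
  have t1 : ct * (n : ℝ) ^ 2 * (a R / 2) ^ 2 ≤ tsz p r n := by
    refine le_trans ?_ (T1 n hn p hle1)
    gcongr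
  have t2 : ct' * (n : ℝ) ^ 2 * (b R / 2) ^ 2 ≤ tsz q (!r) n := by
    refine le_trans ?_ (T2 n hn q hle2)
    gcongr
  -- lower bound for `n s`
  have key : c1 / 14 / h ≤ n * s := by
    have e1 : Real.sqrt (a (5 * (n + 1) + 4) * b (5 * (n + 1) + 4)) ≤ s := by
      apply Real.sqrt_le_sqrt
      refine mul_le_mul ?_ ?_ (hb _).le haR.le
      · exact ab_mono le_rfl (by omega) (Nat.zero_le _)
      · exact ab_mono le_rfl (by omega) (Nat.zero_le _)
    have e2 : ((5 * (n + 1) + 4 : ℕ) : ℝ) ≤ 14 * n := by push_cast; linarith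
    rw [div_div, div_le_iff₀ (by positivity)]
    have e3 : ((5 * (n + 1) + 4 : ℕ) : ℝ) *
        Real.sqrt (a (5 * (n + 1) + 4) * b (5 * (n + 1) + 4)) * h ≤ (14 * n) * s * h := by
      gcongr
    calc c1 ≤ _ := hn2.le
      _ ≤ (14 * n) * s * h := e3
      _ = n * s * (14 * h) := by ring
  have k4 : (c1 / 14 / h) ^ 4 ≤ (n * s) ^ 4 := by gcongr
  have s4 : s ^ 4 = (a R) ^ 2 * (b R) ^ 2 := by
    have : s ^ 2 = a R * b R := Real.sq_sqrt (mul_pos haR hbR).le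
    calc s ^ 4 = (s ^ 2) ^ 2 := by ring
      _ = _ := by rw [this]; ring
  calc ct * ct' * (c1 / 14) ^ 4 / 16 / h ^ 4 = ct * ct' / 16 * (c1 / 14 / h) ^ 4 := by
        rw [div_pow (c1 / 14) h 4]; ring
    _ ≤ ct * ct' / 16 * (n * s) ^ 4 := by gcongr
    _ = (ct * (n : ℝ) ^ 2 * (a R / 2) ^ 2) * (ct' * (n : ℝ) ^ 2 * (b R / 2) ^ 2) := by
        rw [mul_pow, s4]; ring
    _ ≤ tsz p r n * tsz q (!r) n :=
        mul_le_mul t1 t2 (by positivity) (le_trans (by positivity) t1)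

end Pool.Agent.H83.Site
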