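import Pool.Agent.H83.Site.PcRange
import Pool.Agent.H83.Site.ArmT

/-!
# Definitions for the lower bound of the mean cluster size
-/

set_option autoImplicit false

open MeasureTheory ProbabilityTheory unitInterval

namespace Pool.Agent.H83.Site

open Pool.Agent.H89.Perc

/-- The box of half side `m` around the origin. -/
def bT (m : ℕ) : Set TV := TR (-m) m (-m) m

/-- The coordinates of the box of half side `m` (sites and centres). -/
noncomputable def eT (m : ℕ) : Finset Edge := eRect (-m) m (-m) m

/-- The sites of the box of half side `m`. -/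
noncomputable def sB (m : ℕ) : Finset Edge :=
  Finset.Icc (-(m : ℤ)) m ×ˢ Finset.Icc (-(m : ℤ)) m ×ˢ {false}

/-- The origin. -/
def oT : TV := (0, 0, false)

/-- Supremum norm of a site. -/
def nrmT (v : TV) : ℕ := max v.1.natAbs v.2.1.natAbs

/-- The origin is joined to `v` in the box, when `v` is made open. -/
def PArm (m : ℕ) (v : TV) : Set Config := {η | TConn (Function.update η v true) (bT m) oT v}

/-- The vertex `v`, made closed, is joined to the horizontal axis by a closed path in the box. -/
def QArm (m : ℕ) (v : TV) : Set Config :=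
  {η | ∃ x : ℤ, TConn (neg (Function.update η v false)) (bT m) v (x, 0, false)}

/-- The one-arm event of the colour `r`, as an event for the states of the sites. -/
def A0 (r : Bool) (m : ℕ) : Set Config := {ω | full r ω ∈ AB 0 0 0 m}

theorem mem_sB {m : ℕ} {v : TV} : v ∈ sB m ↔ v.2.2 = false ∧ v ∈ bT m := by
  obtain ⟨x, y, b⟩ := v
  cases b
  · simp only [sB, bT, Finset.mem_product, Finset.mem_Icc, Finset.mem_singleton, mem_TR_site,
      and_true, true_and]
    constructor
    · rintro ⟨⟨h1, h2⟩, h3, h4⟩; exact ⟨h1, h2, h3, h4⟩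
    · rintro ⟨h1, h2, h3, h4⟩; exact ⟨⟨h1, h2⟩, h3, h4⟩
  · simp [sB]

theorem bT_subset_eT {m : ℕ} {v : TV} (h : v ∈ bT m) : v ∈ eT m := TR_subset_eRect h

theorem sB_subset_eT (m : ℕ) : sB m ⊆ eT m := fun _ hv => bT_subset_eT (mem_sB.1 hv).2

theorem full_update {r : Bool} {ω : Config} {v : TV} (hv : v.2.2 = false) (b : Bool) :
    full r (Function.update ω v b) = Function.update (full r ω) v b := by
  funext w
  by_cases h : w = v
  · subst h; simp [full, hv]
  · rw [Function.update_of_ne h]
    simp only [full]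
    rw [Function.update_of_ne h]

theorem full_update_cen {r : Bool} {ω : Config} {v : TV} (hv : v.2.2 = true) (b : Bool) :
    full r (Function.update ω v b) = full r ω := by
  funext w
  by_cases h : w = v
  · subst h; simp [full, hv]
  · simp only [full]
    rw [Function.update_of_ne h]

theorem AB_box (m : ℕ) {η : Config} (h : η ∈ AB 0 0 0 m) :
    ∃ w ∈ sph 0 0 m, TConn η (bT m) oT w := by
  obtain ⟨u, hu, w, hw, hc⟩ := h
  have hb : TR (0 - m) (0 + m) (0 - m) (0 + m) = bT m := by
    unfold bT; congr 1 <;> ring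
  rw [hb] at hc
  have hu' : u = oT := by
    obtain ⟨x, y, b⟩ := u
    cases b
    · rw [mem_TR_site] at hu
      have h1 : x = 0 := by omega
      have h2 : y = 0 := by omega
      rw [h1, h2]; rfl
    · rw [mem_TR_cen] at hu; omega
  rw [hu'] at hc
  exact ⟨w, hw, hc⟩

theorem mem_AB_of {m : ℕ} {η : Config} {w : TV} (hw : w ∈ sph 0 0 m)
    (hc : TConn η (bT m) oT w) : η ∈ AB 0 0 0 m := by
  have hb : TR (0 - m) (0 + m) (0 - m) (0 + m) = bT m := by
    unfold bT; congr 1 <;> ring
  refine ⟨oT, ?_, w, hw, ?_⟩
  · rw [oT, mem_TR_site]; omega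
  · rw [hb]; exact hc

end Pool.Agent.H83.Site
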