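import Pool.Agent.H83.SiteG.PivDual
import Pool.Agent.Perc.KI

/-! # The key inequality for the one-arm event -/

set_option autoImplicit false

open MeasureTheory ProbabilityTheory unitInterval

namespace Pool.Agent.H83.Site

open Pool.Agent.H89.Perc

open Pool.Agent.Perc (Ex ind ind_of ind_of_not ind_congr)

private theorem kiarm_update_congr {η η' : Config} {v x : TV} (b : Bool) (h : η x = η' x) :
    Function.update η v b x = Function.update η' v b x := by
  by_cases hx : x = v
  · subst hx; simp
  · rw [Function.update_of_ne hx, Function.update_of_ne hx, h]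

private theorem kiarm_update_eq {η : Config} {v : TV} {b : Bool} (h : η v = b) :
    Function.update η v b = η := by
  rw [← h]; exact Function.update_eq_self v η

theorem localOn_PArm (m : ℕ) (v : TV) : LocalOn (eT m) (PArm m v) := by
  intro η η' h hc
  exact TConn.congr (fun x hx => kiarm_update_congr true (h x (bT_subset_eT hx))) hc

theorem incr_PArm (m : ℕ) (v : TV) : Incr (PArm m v) := by
  intro η η' h hc
  refine TConn.mono le_rfl (fun x _ hx => ?_) hc
  by_cases hxv : x = v
  · subst hxv; simp
  · rw [Function.update_of_ne hxv] at hx ⊢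
    exact h x hx

theorem localOn_QArm (m : ℕ) (v : TV) : LocalOn (eT m) (QArm m v) := by
  rintro η η' h ⟨x, hc⟩
  refine ⟨x, TConn.congr (fun y hy => ?_) hc⟩
  simp only [neg]
  rw [kiarm_update_congr false (h y (bT_subset_eT hy))]

theorem incr_QArm_compl (m : ℕ) (v : TV) : Incr (QArm m v)ᶜ := by
  rintro η η' h hη ⟨x, hc⟩
  refine hη ⟨x, TConn.mono le_rfl (fun y _ hy => ?_) hc⟩
  simp only [neg, Bool.not_eq_true'] at hy ⊢
  by_cases hyv : y = v
  · subst hyv; simp
  · rw [Function.update_of_ne hyv] at hy ⊢
    by_contra hcon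
    rw [Bool.not_eq_false] at hcon
    rw [h y hcon] at hy
    exact absurd hy (by decide)

theorem localOn_A0 (r : Bool) (m : ℕ) : LocalOn (eT m) (A0 r m) := by
  have h := localOn_full r (localOn_AB 0 0 0 m)
  have he : eRect (0 - (m : ℤ)) (0 + m) (0 - m) (0 + m) = eT m := by
    unfold eT; congr 1 <;> ring
  rw [he] at h
  exact h

/-- A path avoids a vertex, or its last part starts at the vertex. -/
private theorem kiarm_avoid {η : Config} {S : Set TV} {u z : TV} (f : TV)
    (h : TConn η S u z) : TConn η (S \ {f}) u z ∨ TConn η S f z := by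
  obtain ⟨h1, h0, h2⟩ := h
  induction h2 using Relation.ReflTransGen.head_induction_on with
  | refl =>
    by_cases hz : z = f
    · right; rw [← hz]; exact TConn.refl h1 h0
    · left; exact TConn.refl ⟨h1, hz⟩ h0
  | @head a c hac hcz ih =>
    rcases ih hac.2.1 hac.2.2.2.2 with h3 | h3
    · by_cases ha : a = f
      · right
        rw [← ha]
        exact hac.conn.trans (h3.mono_set Set.sdiff_subset)
      · left
        have hs : TStep η (S \ {f}) a c := ⟨⟨hac.1, ha⟩, h3.mem_left, hac.2.2⟩
        exact hs.conn.trans h3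
    · exact Or.inr h3

/-- Property (PA). -/
private theorem kiarm_PA {m : ℕ} {v f : TV} {η : Config}
    (h : Function.update η f true ∈ PArm m v) : η ∈ PArm m v ∨ η ∈ PArm m f := by
  have h' : TConn (Function.update (Function.update η f true) v true) (bT m) oT v := h
  have hoth : ∀ x ∈ bT m \ {v, f},
      Function.update (Function.update η f true) v true x = η x := by
    intro x hx
    have h1 : x ≠ v := fun h => hx.2 (Or.inl h)
    have h2 : x ≠ f := fun h => hx.2 (Or.inr h)
    rw [Function.update_of_ne h1, Function.update_of_ne h2]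
  by_cases h0 : oT ∈ ({v, f} : Set TV)
  · rcases h0 with h0 | h0
    · left
      show TConn (Function.update η v true) (bT m) oT v
      rw [← h0]
      exact TConn.refl h'.mem_left (Function.update_self _ _ _)
    · right
      have h0 : oT = f := h0
      show TConn (Function.update η f true) (bT m) oT f
      rw [← h0]
      exact TConn.refl h'.mem_left (Function.update_self _ _ _)
  · obtain ⟨w, w', h1, h2, h3, -⟩ := h'.exists_hit h0 (Or.inl rfl)
    have h1' : TConn η (bT m \ {v, f}) oT w := h1.congr hoth
    have hfin : ∀ z, w' = z → TConn (Function.update η z true) (bT m) oT z := by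
      intro z hz
      have hmono : ∀ x ∈ bT m \ {v, f}, η x = true → Function.update η z true x = true := by
        intro x _ hx
        by_cases hxz : x = z
        · subst hxz; simp
        · rw [Function.update_of_ne hxz]; exact hx
      have h4 : TConn (Function.update η z true) (bT m) oT w :=
        h1'.mono Set.sdiff_subset hmono
      refine h4.tail ⟨h2.1, ?_, ?_, h4.open_right, Function.update_self _ _ _⟩
      · rw [← hz]; exact h2.2.1
      · rw [← hz]; exact h2.2.2.1
    rcases h3 with h3 | h3
    · exact Or.inl (hfin v h3)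
    · exact Or.inr (hfin f h3)

/-- Property (PB). -/
private theorem kiarm_PB {m : ℕ} {e f : TV} {η : Config} (h : η ∈ QArm m e) :
    Function.update η f true ∈ QArm m e ∨ Function.update η e true ∈ QArm m f := by
  obtain ⟨x, hc⟩ := h
  by_cases hz : (x, 0, false) = e
  · left
    refine ⟨x, ?_⟩
    rw [hz]
    exact TConn.refl hc.mem_left (by simp [neg])
  · obtain ⟨w, w', hw, -, h2, h3⟩ := hc.exists_last (T := {e}) rfl hz
    have hw : w = e := hw
    subst hw
    rcases kiarm_avoid f h3 with h4 | h4
    · left
      refine ⟨x, ?_⟩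
      have h5 : TConn (neg (Function.update (Function.update η f true) w false)) (bT m) w'
          (x, 0, false) := by
        refine h4.mono (Set.sdiff_subset.trans Set.sdiff_subset) (fun y hy ho => ?_)
        have h6 : y ≠ w := fun h => hy.1.2 h
        have h7 : y ≠ f := fun h => hy.2 h
        simp only [neg] at ho ⊢
        rw [Function.update_of_ne h6] at ho ⊢
        rw [Function.update_of_ne h7]
        exact ho
      have h6 : TStep (neg (Function.update (Function.update η f true) w false)) (bT m) w w' :=
        ⟨h2.1, h2.2.1, h2.2.2.1, by simp [neg], h5.open_left⟩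
      exact h6.conn.trans h5
    · right
      refine ⟨x, ?_⟩
      refine h4.mono Set.sdiff_subset (fun y hy ho => ?_)
      have h6 : y ≠ w := fun h => hy.2 h
      simp only [neg] at ho ⊢
      by_cases h7 : y = f
      · subst h7; simp
      · rw [Function.update_of_ne h7]
        rw [Function.update_of_ne h6] at ho ⊢
        exact ho

/-- Pivotality for the one-arm event. -/
private theorem kiarm_pivotal {m : ℕ} {v : TV} {η : Config} (hs : v ∈ sB m)
    (h : η ∉ AB 0 0 0 m) (h' : Function.update η v true ∈ AB 0 0 0 m) (hv : η v = false) :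
    η ∈ PArm m v ∧ η ∈ QArm m v := by
  have h3 : Function.update η v false = η := kiarm_update_eq hv
  refine ⟨?_, piv_dual (mem_sB.1 hs).1 (mem_sB.1 hs).2 h' (by rw [h3]; exact h)⟩
  obtain ⟨w, hw, hc⟩ := AB_box m h'
  rcases kiarm_avoid v hc.symm with h4 | h4
  · exfalso
    refine h (mem_AB_of hw ?_)
    refine h4.symm.mono Set.sdiff_subset (fun y hy ho => ?_)
    have h6 : y ≠ v := fun h => hy.2 h
    rwa [Function.update_of_ne h6] at ho
  · exact h4.symm

theorem arm_keyT (p : I) (r : Bool) (m : ℕ) :
    (p : ℝ) * (1 - p) * (∑ v ∈ sB m, pivot p (A0 r m) v) ^ 2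
      ≤ ab p r 0 m * ∑ v ∈ sB m, PT p r (PArm m v) * PT p r (QArm m v) := by
  have hupd : ∀ (S : Finset Edge) (e : Edge), e ∈ sB m → full r (ofS (insert e S)) =
      Function.update (full r (ofS S)) e true := by
    intro S e he
    rw [← full_update (mem_sB.1 he).1, update_ofS_true]
  have hoff : ∀ (S : Finset Edge) (e : Edge), e ∈ sB m → e ∉ S → full r (ofS S) e = false := by
    intro S e he h
    simp [full, (mem_sB.1 he).1, ofS, h]
  have hincP : ∀ (v : TV) (S T : Finset Edge), S ⊆ T → full r (ofS S) ∈ PArm m v →
      full r (ofS T) ∈ PArm m v := fun v S T hST h =>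
    incr_full r (incr_PArm m v) _ _ (ofS_mono hST) h
  have hincQ : ∀ (v : TV) (S T : Finset Edge), S ⊆ T → full r (ofS T) ∈ QArm m v →
      full r (ofS S) ∈ QArm m v := by
    intro v S T hST h
    by_contra hc
    exact incr_full r (incr_QArm_compl m v) _ _ (ofS_mono hST) hc h
  have key := Pool.Agent.Perc.key_inequality (p := (p : ℝ)) (F := eT m) (F' := sB m) p.2.1 p.2.2
    (sB_subset_eT m) (fun e S => full r (ofS S) ∈ PArm m e) (fun e S => full r (ofS S) ∈ QArm m e)
    (fun e _ S T hST _ h => hincP e S T hST h)
    (fun e _ S T hST _ h => hincQ e S T hST h)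
    (fun e he S _ _ h => by
      rw [hupd S e he] at h
      have h' : TConn (Function.update (Function.update (full r (ofS S)) e true) e true)
        (bT m) oT e := h
      rw [Function.update_idem] at h'
      exact h')
    (fun e he S _ _ h => by
      rw [hupd S e he]
      obtain ⟨x, hc⟩ := h
      refine ⟨x, ?_⟩
      rwa [Function.update_idem])
    (fun e _ e' he' _ S _ _ _ h3 _ => by
      rw [hupd S e' he'] at h3
      exact kiarm_PA h3)
    (fun e he e' he' _ S _ _ _ h3 _ => by
      rw [hupd S e he, hupd S e' he']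
      exact kiarm_PB h3)
    (ind (fun S => ofS S ∈ A0 r m))
    (fun e he S _ h1 h2 => by
      refine ind_congr ⟨fun h => ?_, fun h => incr_full r (incr_AB 0 0 0 m) _ _
        (ofS_mono (Finset.subset_insert e S)) h⟩
      by_contra hc
      have h' : full r (ofS (insert e S)) ∈ AB 0 0 0 m := h
      rw [hupd S e he] at h'
      exact h2 (kiarm_pivotal he hc h' (hoff S e he h1)))
  have e1 : ∑ e ∈ sB m, Ex (p : ℝ) (eT m)
      (Pool.Agent.Perc.DD e (ind (fun S => ofS S ∈ A0 r m)))
      = ∑ e ∈ sB m, pivot p (A0 r m) e :=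
    Finset.sum_congr rfl fun e he => (pivot_eq_Ex (localOn_A0 r m) (sB_subset_eT m he)).symm
  have e2 : Ex (p : ℝ) (eT m) (fun S => ind (fun S => ofS S ∈ A0 r m) S ^ 2) = ab p r 0 m := by
    have h1 : ab p r 0 m = Pr p (A0 r m) := rfl
    rw [h1, Pr_eq_Ex (localOn_A0 r m)]
    exact Pool.Agent.Perc.Ex_congr fun S _ => Pool.Agent.Perc.ind_sq _ _
  rw [e1, e2] at key
  refine key.trans (mul_le_mul_of_nonneg_left (Finset.sum_le_sum fun e _ => ?_) PT_nonneg)
  have h3 := PT_fkg_mixed (p := p) (r := r) (localOn_PArm m e) (localOn_QArm m e) (incr_PArm m e)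
    (incr_QArm_compl m e)
  have h4 : PT p r (PArm m e ∩ QArm m e) = Pr p {ω | full r ω ∈ PArm m e ∩ QArm m e} := rfl
  rw [h4, Pr_eq_Ex (localOn_full r ((localOn_PArm m e).inter (localOn_QArm m e)))] at h3
  exact h3

/-- The one-arm probability as a polynomial. -/
noncomputable def GT (r : Bool) (m : ℕ) (x : ℝ) : ℝ := PrR (eT m) (A0 r m) x

theorem ab_eq_GT (p : I) (r : Bool) (m : ℕ) : ab p r 0 m = GT r m p :=
  Pr_eq_PrR (localOn_A0 r m) p

theorem continuous_GT (r : Bool) (m : ℕ) : Continuous (GT r m) :=
  Pool.Agent.Perc.continuous_Ex _ _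

theorem hasDerivAt_GT (r : Bool) (m : ℕ) (p : I) :
    HasDerivAt (GT r m) (∑ v ∈ sB m, pivot p (A0 r m) v) (p : ℝ) := by
  have h := hasDerivAt_PrR (localOn_A0 r m) p
  have h2 : ∑ v ∈ sB m, pivot p (A0 r m) v = ∑ v ∈ eT m, pivot p (A0 r m) v := by
    refine Finset.sum_subset (sB_subset_eT m) (fun v hv hv' => ?_)
    have hcen : v.2.2 = true := by
      by_contra hc
      rw [Bool.not_eq_true] at hc
      apply hv'
      rw [mem_sB]
      refine ⟨hc, ?_⟩
      obtain ⟨x, y, b⟩ := v
      have hc : b = false := hc
      subst hc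
      unfold eT at hv
      rw [mem_eRect] at hv
      unfold bT
      rw [mem_TR_site]
      exact hv
    unfold pivot
    have h1 : ∀ b : Bool, {ω : Config | Function.update ω v b ∈ A0 r m} = A0 r m := by
      intro b
      ext ω
      show full r (Function.update ω v b) ∈ AB 0 0 0 m ↔ full r ω ∈ AB 0 0 0 m
      rw [full_update_cen hcen]
    rw [h1, h1, sub_self]
  rw [h2]
  exact h

end Pool.Agent.H83.Site
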