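import Pool.Agent.H83.SiteG.GDefs
import Pool.Agent.H89.Perc.Z2

/-! # A closed path from a pivotal site to the axis -/

set_option autoImplicit false

namespace Pool.Agent.H83.Site

open Pool.Agent.H89.Perc

open Classical in
private noncomputable def pdInd (A : Set TV) (v : TV) : ZMod 2 := if v ∈ A then 1 else 0

private noncomputable def pdK (A B : Set TV) (u v : TV) : ZMod 2 :=
  pdInd A u * pdInd B v + pdInd B u * pdInd A v

private lemma pd_tri {A B R : Set TV} (hAB : ∀ v, v ∈ A → v ∉ B)
    (hcl : ∀ u v w, w ∈ R → TAdj u w → TAdj v w → u ∈ A → v ∈ B → w ∈ A ∨ w ∈ B)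
    {u v w : TV} (hu : u ∈ R) (hv : v ∈ R) (hw : w ∈ R) (huv : TAdj u v) (hvw : TAdj v w)
    (huw : TAdj u w) : pdK A B u v + pdK A B v w + pdK A B u w = 0 := by
  have h1 := hcl u v w hw huw hvw
  have h2 := hcl v u w hw hvw huw
  have h3 := hcl u w v hv huv hvw.symm
  have h4 := hcl w u v hv hvw.symm huv
  have h5 := hcl v w u hu huv.symm huw.symm
  have h6 := hcl w v u hu huw.symm huv.symm
  have h7 := hAB u
  have h8 := hAB v
  have h9 := hAB w
  have two : (1 : ZMod 2) + 1 = 0 := by decide
  unfold pdK pdInd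
  by_cases a1 : u ∈ A <;> by_cases a2 : v ∈ A <;> by_cases a3 : w ∈ A <;>
    by_cases b1 : u ∈ B <;> by_cases b2 : v ∈ B <;> by_cases b3 : w ∈ B <;>
    simp only [a1, a2, a3, b1, b2, b3, not_true_eq_false, not_false_eq_true, if_true, if_false,
      forall_true_left, or_false, or_true, mul_one, mul_zero, add_zero, zero_add, two] at *

/-- Integration of a cocycle on a rectangle of the centred lattice. -/
private theorem pd_integ {a b c d : ℤ} (κ : TV → TV → ZMod 2) (hs : ∀ u v, κ u v = κ v u)
    (ht : ∀ u v w, u ∈ TR a b c d → v ∈ TR a b c d → w ∈ TR a b c d → TAdj u v → TAdj v w →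
      TAdj u w → κ u v + κ v w + κ u w = 0) :
    ∃ W : TV → ZMod 2, ∀ u v, u ∈ TR a b c d → v ∈ TR a b c d → TAdj u v →
      κ u v = W u + W v := by
  obtain ⟨W, hW⟩ := integRect (a := a) (b := b) (c := c) (d := d)
    (fun e => κ ((src e).1, (src e).2, false) ((tgt e).1, (tgt e).2, false)) (by
      rintro ⟨x, y⟩ ⟨h1, h2, h3, h4⟩
      simp only at h1 h2 h3 h4
      have m0 : ((x, y, true) : TV) ∈ TR a b c d := by rw [mem_TR_cen]; omega
      have m1 : ((x, y, false) : TV) ∈ TR a b c d := by rw [mem_TR_site]; omega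
      have m2 : ((x + 1, y, false) : TV) ∈ TR a b c d := by rw [mem_TR_site]; omega
      have m3 : ((x + 1, y + 1, false) : TV) ∈ TR a b c d := by rw [mem_TR_site]; omega
      have m4 : ((x, y + 1, false) : TV) ∈ TR a b c d := by rw [mem_TR_site]; omega
      have t1 := ht _ _ _ m1 m2 m0 (by simp [TAdj]) (by simp [TAdj]) (by simp [TAdj])
      have t2 := ht _ _ _ m2 m3 m0 (by simp [TAdj]) (by simp [TAdj]) (by simp [TAdj])
      have t3 := ht _ _ _ m4 m3 m0 (by simp [TAdj]) (by simp [TAdj]) (by simp [TAdj])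
      have t4 := ht _ _ _ m1 m4 m0 (by simp [TAdj]) (by simp [TAdj]) (by simp [TAdj])
      simp only [fsum, src, tgt, Bool.false_eq_true, if_false, if_true]
      linear_combination t1 + t2 + t3 + t4
        - z2_add_self (κ (x, y, false) (x, y, true))
        - z2_add_self (κ (x + 1, y, false) (x, y, true))
        - z2_add_self (κ (x + 1, y + 1, false) (x, y, true))
        - z2_add_self (κ (x, y + 1, false) (x, y, true)))
  have hver : ∀ x y, a ≤ x → x ≤ b → c ≤ y → y + 1 ≤ d →
      κ (x, y, false) (x, y + 1, false) = W (x, y) + W (x, y + 1) := by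
    intro x y h1 h2 h3 h4
    have := hW (x, y, true) ⟨h1, h2, h3, by simp only [src]; omega⟩
      ⟨by simpa [tgt] using h1, by simpa [tgt] using h2, by simp only [tgt, if_true]; omega,
        by simp only [tgt, if_true]; omega⟩
    simpa only [src, tgt, if_true] using this
  have hhor : ∀ x y, a ≤ x → x + 1 ≤ b → c ≤ y → y ≤ d →
      κ (x, y, false) (x + 1, y, false) = W (x, y) + W (x + 1, y) := by
    intro x y h1 h2 h3 h4
    have := hW (x, y, false) ⟨h1, by simp only [src]; omega, h3, h4⟩
      ⟨by simp only [tgt, Bool.false_eq_true, if_false]; omega,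
        by simpa [tgt] using h2, by simpa [tgt] using h3, by simpa [tgt] using h4⟩
    simpa only [src, tgt, Bool.false_eq_true, if_false] using this
  set W' : TV → ZMod 2 := fun v =>
    if v.2.2 then W (v.1, v.2.1) + κ (v.1, v.2.1, false) v else W (v.1, v.2.1) with hW'
  have hsite : ∀ x y, W' (x, y, false) = W (x, y) := fun x y => by simp [hW']
  have hcen : ∀ x y, W' (x, y, true) = W (x, y) + κ (x, y, false) (x, y, true) := fun x y => by
    simp [hW']
  -- corners and centres
  have hcor : ∀ x y x' y', (x, y, true) ∈ TR a b c d → (x' = x ∨ x' = x + 1) →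
      (y' = y ∨ y' = y + 1) → κ (x', y', false) (x, y, true) = W' (x', y', false) +
        W' (x, y, true) := by
    intro x y x' y' hm hx hy
    rw [mem_TR_cen] at hm
    have m0 : ((x, y, true) : TV) ∈ TR a b c d := by rw [mem_TR_cen]; omega
    have m1 : ((x, y, false) : TV) ∈ TR a b c d := by rw [mem_TR_site]; omega
    have m2 : ((x + 1, y, false) : TV) ∈ TR a b c d := by rw [mem_TR_site]; omega
    have m3 : ((x + 1, y + 1, false) : TV) ∈ TR a b c d := by rw [mem_TR_site]; omega
    have m4 : ((x, y + 1, false) : TV) ∈ TR a b c d := by rw [mem_TR_site]; omega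
    have t1 := ht _ _ _ m1 m2 m0 (by simp [TAdj]) (by simp [TAdj]) (by simp [TAdj])
    have t2 := ht _ _ _ m2 m3 m0 (by simp [TAdj]) (by simp [TAdj]) (by simp [TAdj])
    have t4 := ht _ _ _ m1 m4 m0 (by simp [TAdj]) (by simp [TAdj]) (by simp [TAdj])
    have e1 := hhor x y (by omega) (by omega) (by omega) (by omega)
    have e2 := hver (x + 1) y (by omega) (by omega) (by omega) (by omega)
    have e3 := hver x y (by omega) (by omega) (by omega) (by omega)
    have two : (2 : ZMod 2) = 0 := by decide
    rcases hx with rfl | rfl <;> rcases hy with rfl | rfl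
    · rw [hsite, hcen]
      linear_combination -z2_add_self (W (x', y'))
    · rw [hsite, hcen]
      rw [e3] at t4
      linear_combination t4 - z2_add_self (W (x', y)) - z2_add_self (W (x', y + 1))
        - z2_add_self (κ (x', y, false) (x', y, true))
    · rw [hsite, hcen]
      rw [e1] at t1
      linear_combination t1 - z2_add_self (W (x, y')) - z2_add_self (W (x + 1, y'))
        - z2_add_self (κ (x, y', false) (x, y', true))
    · rw [hsite, hcen]
      rw [e1] at t1
      rw [e2] at t2
      linear_combination t1 + t2 - z2_add_self (W (x, y)) - z2_add_self (W (x + 1, y))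
        - z2_add_self (W (x + 1, y + 1))
        - z2_add_self (κ (x, y, false) (x, y, true))
        - z2_add_self (κ (x + 1, y, false) (x, y, true))
  refine ⟨W', ?_⟩
  rintro ⟨x, y, i⟩ ⟨x', y', j⟩ hu hv huv
  unfold TAdj at huv
  simp only at huv
  cases i <;> cases j
  · rw [mem_TR_site] at hu hv
    simp only [true_and, Bool.false_eq_true, false_and, and_false, or_false] at huv
    rw [hsite, hsite]
    rcases huv with ⟨rfl, rfl | rfl⟩ | ⟨rfl, rfl | rfl⟩
    · rw [hs, hver x y' (by omega) (by omega) (by omega) (by omega), add_comm]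
    · rw [hver x y (by omega) (by omega) (by omega) (by omega)]
    · rw [hs, hhor x' y (by omega) (by omega) (by omega) (by omega), add_comm]
    · rw [hhor x y (by omega) (by omega) (by omega) (by omega)]
  · simp only [Bool.true_eq_false, Bool.false_eq_true, false_and, and_false, or_false, true_and,
      false_or] at huv
    exact hcor x' y' x y hv huv.1 huv.2
  · simp only [Bool.true_eq_false, Bool.false_eq_true, false_and, and_false, true_and,
      false_or] at huv
    rw [hs, hcor x y x' y' hu huv.1 huv.2, add_comm]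
  · simp at huv

theorem piv_dual {m : ℕ} {v : TV} {η : Config} (hv : v.2.2 = false) (hb : v ∈ bT m)
    (h1 : Function.update η v true ∈ AB 0 0 0 m) (h2 : Function.update η v false ∉ AB 0 0 0 m) :
    η ∈ QArm m v := by
  by_cases hvo : v = oT
  · subst hvo
    refine ⟨0, TConn.refl hb ?_⟩
    simp [neg]
  by_contra hQ
  set w0 : Config := Function.update η v false with hw0
  set w1 : Config := Function.update η v true with hw1
  have hw0v : w0 v = false := by simp [hw0]
  have hne : ∀ z, z ≠ v → w1 z = w0 z := fun z hz => by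
    rw [hw0, hw1, Function.update_of_ne hz, Function.update_of_ne hz]
  set L : Set TV := bT m with hL
  set C : Set TV := {z | TConn w0 L oT z} with hC
  set D : Set TV := {z | TConn (neg w0) L v z} with hD
  have hCo : ∀ z ∈ C, w0 z = true := fun z hz => TConn.open_right hz
  have hDc : ∀ z ∈ D, w0 z = false := fun z hz => by
    have := TConn.open_right hz
    simpa [neg] using this
  have hdis : ∀ z, z ∈ C → z ∉ D := by
    intro z h3 h4
    have h5 := hCo z h3
    rw [hDc z h4] at h5
    exact absurd h5 (by decide)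
  have hcl : ∀ u x w, w ∈ L → TAdj u w → TAdj x w → u ∈ C → x ∈ D → w ∈ C ∨ w ∈ D := by
    intro u x w hw huw hxw hu hx
    by_cases ho : w0 w = true
    · left
      exact TConn.tail hu ⟨TConn.mem_right hu, hw, huw, TConn.open_right hu, ho⟩
    · right
      exact TConn.tail hx ⟨TConn.mem_right hx, hw, hxw, TConn.open_right hx, by
        simpa [neg] using ho⟩
  have hsph : ∀ z ∈ sph 0 0 m, z ∉ C := fun z hz hzC => h2 (mem_AB_of hz hzC)
  have hDax : ∀ x : ℤ, ((x, 0, false) : TV) ∉ D := fun x hx => hQ ⟨x, hx⟩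
  obtain ⟨s, hs, hcs⟩ := AB_box m h1
  have ho0 : w0 oT = true := by
    rw [← hne oT (Ne.symm hvo)]; exact hcs.open_left
  have hoC : oT ∈ C := TConn.refl hcs.mem_left ho0
  have hvD : v ∈ D := TConn.refl hb (by simp [neg, hw0v])
  obtain ⟨w, w', h3, h4, h5, h6⟩ := hcs.exists_last (T := C) hoC (hsph s hs)
  have hw'C : w' ∉ C := h6.mem_left.2
  have hw'v : w' = v := by
    by_contra hn
    apply hw'C
    refine TConn.tail h3 ⟨h5.1, h5.2.1, h5.2.2.1, hCo _ h3, ?_⟩
    rw [← hne _ hn]; exact h5.2.2.2.2
  subst hw'v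
  -- integration
  obtain ⟨W, hW⟩ := pd_integ (a := -(m : ℤ)) (b := m) (c := -(m : ℤ)) (d := m) (pdK C D)
    (fun u v => by unfold pdK; ring)
    (fun u x w hu hx hw h7 h8 h9 => pd_tri hdis hcl hu hx hw h7 h8 h9)
  have hK : ∀ u x, (u ∉ C ∨ x ∉ D) → (u ∉ D ∨ x ∉ C) → pdK C D u x = 0 := by
    intro u x h1 h2
    unfold pdK pdInd
    rcases h1 with h1 | h1 <;> rcases h2 with h2 | h2 <;> simp [h1, h2]
  have hEq : ∀ u x, u ∈ L → x ∈ L → TAdj u x → pdK C D u x = 0 → W u = W x := by
    intro u x hu hx hux h0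
    have := hW u x hu hx hux
    rw [h0] at this
    exact z2_add_eq_zero.1 this.symm
  -- along `C`
  have e1 : W oT = W w := by
    refine TConn.induction_right (P := fun z => W oT = W z) h3 rfl ?_
    intro p q hp hpq ih
    have hq : q ∈ C := TConn.tail hp hpq
    rw [ih]
    exact hEq p q hpq.1 hpq.2.1 hpq.2.2.1 (hK _ _ (Or.inr (hdis q hq)) (Or.inl (hdis p hp)))
  -- the step into `v`
  have e2 : W w + W w' = 1 := by
    rw [← hW w w' h5.1 h5.2.1 h5.2.2.1]
    unfold pdK pdInd
    rw [if_pos h3, if_pos hvD, if_neg (hdis w h3), zero_mul, add_zero, mul_one]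
  -- outside `C`
  have e3 : W w' = W s := by
    refine h6.induction_right (P := fun z => W w' = W z) rfl ?_
    intro p q hp hpq ih
    rw [ih]
    exact hEq p q hpq.1.1 hpq.2.1.1 hpq.2.2.1 (hK _ _ (Or.inl hpq.1.2) (Or.inr hpq.2.1.2))
  -- along the axis
  have e4 : W oT = W ((m : ℤ), 0, false) := by
    have := const_row (f := fun V : ℤ × ℤ => W (V.1, V.2, false)) (x₁ := 0) (x₂ := m) (y := 0)
      (by omega) (fun x hx1 hx2 => by
        simp only
        refine hEq _ _ ?_ ?_ ?_ (hK _ _ (Or.inr (hDax _)) (Or.inl (hDax _)))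
        · rw [hL, bT, mem_TR_site]; omega
        · rw [hL, bT, mem_TR_site]; omega
        · simp [TAdj])
    simpa [oT] using this
  -- along the sphere
  have hrow : ∀ y : ℤ, (y = m ∨ y = -m) → ∀ x : ℤ, -(m : ℤ) ≤ x → x ≤ m →
      W (x, y, false) = W ((m : ℤ), y, false) := by
    intro y hy x hx1 hx2
    have := const_row (f := fun V : ℤ × ℤ => W (V.1, V.2, false)) (x₁ := x) (x₂ := m) (y := y)
      hx2 (fun x' hx1' hx2' => by
        simp only
        refine hEq _ _ ?_ ?_ ?_ (hK _ _ (Or.inl (hsph _ ?_)) (Or.inr (hsph _ ?_)))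
        · rw [hL, bT, mem_TR_site]; omega
        · rw [hL, bT, mem_TR_site]; omega
        · simp [TAdj]
        · refine ⟨?_, rfl, ?_⟩
          · rw [mem_TR_site]; omega
          · simp only; omega
        · refine ⟨?_, rfl, ?_⟩
          · rw [mem_TR_site]; omega
          · simp only; omega)
    simpa using this
  have hcol : ∀ x : ℤ, (x = m ∨ x = -m) → ∀ y : ℤ, -(m : ℤ) ≤ y → y ≤ m →
      W (x, y, false) = W (x, (m : ℤ), false) := by
    intro x hx y hy1 hy2
    have := const_col (f := fun V : ℤ × ℤ => W (V.1, V.2, false)) (x := x) (y₁ := y) (y₂ := m)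
      hy2 (fun y' hy1' hy2' => by
        simp only
        refine hEq _ _ ?_ ?_ ?_ (hK _ _ (Or.inl (hsph _ ?_)) (Or.inr (hsph _ ?_)))
        · rw [hL, bT, mem_TR_site]; omega
        · rw [hL, bT, mem_TR_site]; omega
        · simp [TAdj]
        · refine ⟨?_, rfl, ?_⟩
          · rw [mem_TR_site]; omega
          · simp only; omega
        · refine ⟨?_, rfl, ?_⟩
          · rw [mem_TR_site]; omega
          · simp only; omega)
    simpa using this
  have e5 : W s = W ((m : ℤ), (m : ℤ), false) := by
    obtain ⟨⟨x, y, i⟩, hs⟩ : ∃ s' : TV, s' = s := ⟨s, rfl⟩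
    subst hs
    obtain ⟨g1, g2, g3⟩ := ‹(x, y, i) ∈ sph 0 0 m›
    simp only at g2 g3
    subst g2
    rw [mem_TR_site] at g1
    rcases g3 with g3 | g3 | g3 | g3
    · rw [hcol x (by omega) y (by omega) (by omega), hrow m (by omega) x (by omega) (by omega)]
    · rw [hcol x (by omega) y (by omega) (by omega), hrow m (by omega) x (by omega) (by omega)]
    · rw [hrow y (by omega) x (by omega) (by omega), hcol m (by omega) y (by omega) (by omega)]
    · rw [hrow y (by omega) x (by omega) (by omega), hcol m (by omega) y (by omega) (by omega)]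
  have e6 : W ((m : ℤ), 0, false) = W ((m : ℤ), (m : ℤ), false) :=
    hcol m (Or.inl rfl) 0 (by omega) (by omega)
  have : W w = W w' := by rw [← e1, e4, e6, ← e5, ← e3]
  rw [this, z2_add_self] at e2
  exact absurd e2 (by decide)

end Pool.Agent.H83.Site
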