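import Pool.Agent.H83.SiteG.DerivT

/-! # Stability of the one-arm probability below the critical point -/

set_option autoImplicit false

open MeasureTheory ProbabilityTheory unitInterval

namespace Pool.Agent.H83.Site

open Pool.Agent.H89.Perc Filter Topology

/-- Mean value bound. -/
private theorem windowT_mvt (r : Bool) (k : ℕ) (B x y : ℝ) (hx : 0 ≤ x) (hxy : x ≤ y)
    (hy : y ≤ 1) (hB : ∀ z : I, x ≤ z → (z : ℝ) ≤ y → ∑ v ∈ sB k, pivot z (A0 r k) v ≤ B) :
    GT r k y - GT r k x ≤ B * (y - x) := by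
  have hI : ∀ w ∈ Set.Icc x y, w ∈ I := fun w hw => ⟨by linarith [hw.1], by linarith [hw.2]⟩
  exact Convex.image_sub_le_mul_sub_of_deriv_le (convex_Icc x y)
    (continuous_GT r k).continuousOn
    (fun w hw => by
      rw [interior_Icc] at hw
      exact (hasDerivAt_GT r k
        ⟨w, hI w ⟨hw.1.le, hw.2.le⟩⟩).differentiableAt.differentiableWithinAt)
    (C := B)
    (fun w hw => by
      rw [interior_Icc] at hw
      have hw' : w ∈ I := hI w ⟨hw.1.le, hw.2.le⟩
      rw [(hasDerivAt_GT r k ⟨w, hw'⟩).deriv]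
      exact hB ⟨w, hw'⟩ hw.1.le hw.2.le)
    x ⟨le_rfl, hxy⟩ y ⟨hxy, le_rfl⟩ hxy

private theorem windowT_zero (r : Bool) (p : I) : ∑ v ∈ sB 0, pivot p (A0 r 0) v ≤ 1 := by
  have h1 : sB 0 = {(0, 0, false)} := by
    ext v
    rw [mem_sB, Finset.mem_singleton]
    obtain ⟨x, y, b⟩ := v
    constructor
    · rintro ⟨hb, hv⟩
      simp only at hb
      subst hb
      rw [bT, mem_TR_site] at hv
      have hx : x = 0 := by omega
      have hy : y = 0 := by omega
      rw [hx, hy]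
    · intro h
      rw [h]
      refine ⟨rfl, ?_⟩
      rw [bT, mem_TR_site]
      omega
  rw [h1, Finset.sum_singleton, pivot]
  have h2 : Pr p {ω | Function.update ω (0, 0, false) true ∈ A0 r 0} ≤ 1 := Pr_le_one
  have h3 : 0 ≤ Pr p {ω | Function.update ω (0, 0, false) false ∈ A0 r 0} := Pr_nonneg
  linarith

/-- Stability above the critical point. -/
private theorem windowT_upper {p₀ : I} {r : Bool} (h1 : BXP p₀ r) (h2 : BXP (σ p₀) (!r)) :
    ∃ c > (0 : ℝ), ∀ n : ℕ, 1 ≤ n → ∀ p : I, p₀ ≤ p →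
      (p : ℝ) - p₀ ≤ c / (n * Real.sqrt (ab p₀ r 0 n * ab (σ p₀) (!r) 0 n)) →
      ∀ k ≤ n, ab p r 0 k ≤ 3 / 2 * ab p₀ r 0 k := by
  obtain ⟨C1, hC1, δ1, hδ1, hder⟩ := deriv_boundT h1 h2
  obtain ⟨C', hC', hmono⟩ := mul_sqrt_mono h1 h2
  have hapos : ∀ k, 0 < ab p₀ r 0 k := ab_pos h1
  have hbpos : ∀ k, 0 < ab (σ p₀) (!r) 0 k := ab_pos h2
  obtain ⟨s, hs⟩ : ∃ s : ℕ → ℝ, ∀ k, s k = Real.sqrt (ab p₀ r 0 k * ab (σ p₀) (!r) 0 k) :=
    ⟨_, fun _ => rfl⟩
  have hspos : ∀ k, 0 < s k := fun k => by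
    rw [hs]
    exact Real.sqrt_pos.2 (mul_pos (hapos k) (hbpos k))
  simp only [← hs] at hder hmono ⊢
  have hC'p : 0 < C' := by linarith
  have hs1 := hspos 1
  have ha0 := hapos 0
  set c : ℝ := min (1 / (2 * C1 * C')) (min (δ1 * s 1 / C') (ab p₀ r 0 0 * s 1 / (2 * C'))) with hc
  have hcp : 0 < c := lt_min (by positivity) (lt_min (by positivity) (by positivity))
  have hc1 : c * (C1 * C') ≤ 1 / 2 := by
    have : c ≤ 1 / (2 * C1 * C') := min_le_left _ _
    calc c * (C1 * C') ≤ 1 / (2 * C1 * C') * (C1 * C') := by gcongr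
      _ = 1 / 2 := by field_simp
  have hc2 : c * C' ≤ δ1 * s 1 := by
    have : c ≤ δ1 * s 1 / C' := (min_le_right _ _).trans (min_le_left _ _)
    rwa [le_div_iff₀ hC'p] at this
  have hc3 : c * C' ≤ ab p₀ r 0 0 * s 1 / 2 := by
    have : c ≤ ab p₀ r 0 0 * s 1 / (2 * C') := (min_le_right _ _).trans (min_le_right _ _)
    rw [le_div_iff₀ (by positivity)] at this
    linarith
  refine ⟨c, hcp, ?_⟩
  intro n hn p hp hpc
  have hnp : (0 : ℝ) < n := by exact_mod_cast hn
  have hsn := hspos n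
  set δ : ℝ := c / (n * s n) with hδ
  have hD : 0 < n * s n := by positivity
  have hδp : 0 < δ := by positivity
  have hD1 : s 1 ≤ C' * (n * s n) := by
    have := hmono 1 n le_rfl hn
    push_cast at this
    linarith
  have hδle : δ ≤ δ1 := by
    rw [hδ, div_le_iff₀ hD]
    have h3 : c * C' ≤ (δ1 * (n * s n)) * C' := by
      calc c * C' ≤ δ1 * s 1 := hc2
        _ ≤ δ1 * (C' * (n * s n)) := by gcongr
        _ = _ := by ring
    exact le_of_mul_le_mul_right h3 hC'p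
  have hδle2 : δ ≤ ab p₀ r 0 0 / 2 := by
    rw [hδ, div_le_iff₀ hD]
    have h3 : c * C' ≤ (ab p₀ r 0 0 / 2 * (n * s n)) * C' := by
      calc c * C' ≤ ab p₀ r 0 0 * s 1 / 2 := hc3
        _ = ab p₀ r 0 0 / 2 * s 1 := by ring
        _ ≤ ab p₀ r 0 0 / 2 * (C' * (n * s n)) := by gcongr
        _ = _ := by ring
    exact le_of_mul_le_mul_right h3 hC'p
  -- the crucial smallness
  have hsmall : ∀ k : ℕ, 1 ≤ k → k ≤ n → C1 * k * (ab p₀ r 0 k * s k) * δ ≤
      ab p₀ r 0 k / 2 := by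
    intro k hk hkn
    have h3 := hmono k n hk hkn
    have h4 := hapos k
    have h5 := hspos k
    have h6 : (k : ℝ) * s k * δ ≤ C' * c := by
      rw [hδ, ← mul_div_assoc, div_le_iff₀ hD]
      calc (k : ℝ) * s k * c ≤ C' * (n * s n) * c := by gcongr
        _ = _ := by ring
    calc C1 * k * (ab p₀ r 0 k * s k) * δ = (C1 * (k * s k * δ)) * ab p₀ r 0 k := by ring
      _ ≤ (C1 * (C' * c)) * ab p₀ r 0 k := by gcongr
      _ = (c * (C1 * C')) * ab p₀ r 0 k := by ring
      _ ≤ (1 / 2) * ab p₀ r 0 k := by gcongr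
      _ = _ := by ring
  have hp0 : (p₀ : ℝ) ≤ p := hp
  have hp01 := p₀.2
  have hp1 := p.2
  -- continuous induction
  have upper : ∀ x ∈ Set.Icc (p₀ : ℝ) p, ∀ k ≤ n, GT r k x ≤ 3 / 2 * ab p₀ r 0 k := by
    have hclosed : IsClosed ({x : ℝ | ∀ k ≤ n, GT r k x ≤ 3 / 2 * ab p₀ r 0 k}
        ∩ Set.Icc (p₀ : ℝ) p) := by
      refine IsClosed.inter ?_ isClosed_Icc
      have : {x : ℝ | ∀ k ≤ n, GT r k x ≤ 3 / 2 * ab p₀ r 0 k}
          = ⋂ k, ⋂ (_ : k ≤ n), {x : ℝ | GT r k x ≤ 3 / 2 * ab p₀ r 0 k} := by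
        ext x; simp
      rw [this]
      exact isClosed_iInter fun k => isClosed_iInter fun _ =>
        isClosed_le (continuous_GT r k) continuous_const
    have hstart : (p₀ : ℝ) ∈ {x : ℝ | ∀ k ≤ n, GT r k x ≤ 3 / 2 * ab p₀ r 0 k} := by
      intro k _
      have h3 := ab_eq_GT p₀ r k
      rw [← h3]
      have := hapos k
      linarith
    have hsub := hclosed.Icc_subset_of_forall_mem_nhdsWithin hstart ?_
    · exact fun x hx => hsub hx
    rintro x ⟨hxs, hx1, hx2⟩
    have hev : ∀ᶠ y in 𝓝 x, ∀ k ∈ Finset.range (n + 1), GT r k y < 2 * ab p₀ r 0 k := by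
      rw [Filter.eventually_all_finset]
      intro k hk
      have hk' : k ≤ n := by rw [Finset.mem_range] at hk; omega
      refine (continuous_GT r k).continuousAt.eventually_lt continuousAt_const ?_
      have h3 := hxs k hk'
      have h4 := hapos k
      linarith
    have hev2 : ∀ᶠ y in 𝓝[>] x, (∀ k ∈ Finset.range (n + 1), GT r k y < 2 * ab p₀ r 0 k) ∧
        x < y ∧ y < p := by
      refine (hev.filter_mono nhdsWithin_le_nhds).and ?_
      refine Filter.Eventually.and (eventually_mem_nhdsWithin) ?_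
      exact (eventually_lt_nhds hx2).filter_mono nhdsWithin_le_nhds
    filter_upwards [hev2] with y hy
    obtain ⟨hy1, hy2, hy3⟩ := hy
    intro k hk
    have hyI : y ∈ I := ⟨by linarith [hp01.1], by linarith [hp1.2]⟩
    have hyd : y - p₀ ≤ δ := by linarith
    rcases Nat.eq_zero_or_pos k with h0 | hkp
    · subst h0
      have hG := windowT_mvt r 0 1 p₀ y hp01.1 (by linarith) (by linarith [hp1.2])
        fun z _ _ => windowT_zero r z
      rw [← ab_eq_GT p₀ r 0] at hG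
      linarith
    · have hG := windowT_mvt r k (C1 * k * (ab p₀ r 0 k * s k)) p₀ y hp01.1 (by linarith)
        (by linarith [hp1.2]) ?_
      · rw [← ab_eq_GT p₀ r k] at hG
        have h3 := hsmall k hkp hk
        have h4 := hapos k
        have h5 := hspos k
        have h6 : C1 * k * (ab p₀ r 0 k * s k) * (y - p₀) ≤
            C1 * k * (ab p₀ r 0 k * s k) * δ := by gcongr
        linarith
      · intro z hz1 hz2
        refine hder k hkp z ?_ ?_ ?_
        · rw [abs_le]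
          constructor <;> linarith
        · intro j hj
          have h3 : ab z r 0 j ≤ ab ⟨y, hyI⟩ r 0 j := ab_mono_param r 0 j hz2
          have h4 := ab_eq_GT ⟨y, hyI⟩ r j
          have h5 := hy1 j (by rw [Finset.mem_range]; omega)
          simp only at h4
          linarith
        · intro j hj
          have h3 : ab (σ z) (!r) 0 j ≤ ab (σ p₀) (!r) 0 j := by
            refine ab_mono_param (!r) 0 j ?_
            show ((σ z : I) : ℝ) ≤ ((σ p₀ : I) : ℝ)
            rw [unitInterval.coe_symm_eq, unitInterval.coe_symm_eq]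
            linarith
          have := hbpos j
          linarith
  intro k hk
  rw [ab_eq_GT p r k]
  exact upper p ⟨hp0, le_rfl⟩ k hk

theorem windowT {p₀ : I} {r : Bool} (h1 : BXP p₀ r) (h2 : BXP (σ p₀) (!r)) :
    ∃ c > (0 : ℝ), ∀ n : ℕ, 1 ≤ n → ∀ q : I, q ≤ p₀ →
      (p₀ : ℝ) - q ≤ c / (n * Real.sqrt (ab p₀ r 0 n * ab (σ p₀) (!r) 0 n)) →
      ab p₀ r 0 n / 2 ≤ ab q r 0 n := by
  have h1' : BXP (σ (σ p₀)) (!(!r)) := by
    rw [σσ, Bool.not_not]
    exact h1
  obtain ⟨cu, hcu, hup⟩ := windowT_upper h2 h1'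
  rw [σσ, Bool.not_not] at hup
  obtain ⟨C1, hC1, δ1, hδ1, hder⟩ := deriv_boundT h1 h2
  obtain ⟨C', hC', hmono⟩ := mul_sqrt_mono h1 h2
  have hapos : ∀ k, 0 < ab p₀ r 0 k := ab_pos h1
  have hbpos : ∀ k, 0 < ab (σ p₀) (!r) 0 k := ab_pos h2
  have hsym : ∀ k, Real.sqrt (ab (σ p₀) (!r) 0 k * ab p₀ r 0 k) =
      Real.sqrt (ab p₀ r 0 k * ab (σ p₀) (!r) 0 k) := fun k => by rw [mul_comm]
  simp only [hsym] at hup
  obtain ⟨s, hs⟩ : ∃ s : ℕ → ℝ, ∀ k, s k = Real.sqrt (ab p₀ r 0 k * ab (σ p₀) (!r) 0 k) :=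
    ⟨_, fun _ => rfl⟩
  have hspos : ∀ k, 0 < s k := fun k => by
    rw [hs]
    exact Real.sqrt_pos.2 (mul_pos (hapos k) (hbpos k))
  simp only [← hs] at hder hmono hup ⊢
  have hC'p : 0 < C' := by linarith
  have hs1 := hspos 1
  set c : ℝ := min cu (min (1 / (2 * C1)) (δ1 * s 1 / C')) with hc
  have hcp : 0 < c := lt_min hcu (lt_min (by positivity) (by positivity))
  have hc0 : c ≤ cu := min_le_left _ _
  have hc1 : c * C1 ≤ 1 / 2 := by
    have : c ≤ 1 / (2 * C1) := (min_le_right _ _).trans (min_le_left _ _)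
    calc c * C1 ≤ 1 / (2 * C1) * C1 := by gcongr
      _ = 1 / 2 := by field_simp
  have hc2 : c * C' ≤ δ1 * s 1 := by
    have : c ≤ δ1 * s 1 / C' := (min_le_right _ _).trans (min_le_right _ _)
    rwa [le_div_iff₀ hC'p] at this
  refine ⟨c, hcp, ?_⟩
  intro n hn q hq hqc
  have hnp : (0 : ℝ) < n := by exact_mod_cast hn
  have hsn := hspos n
  have han := hapos n
  have hD : 0 < n * s n := by positivity
  set δ : ℝ := c / (n * s n) with hδ
  have hD1 : s 1 ≤ C' * (n * s n) := by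
    have := hmono 1 n le_rfl hn
    push_cast at this
    linarith
  have hδle : δ ≤ δ1 := by
    rw [hδ, div_le_iff₀ hD]
    have h3 : c * C' ≤ (δ1 * (n * s n)) * C' := by
      calc c * C' ≤ δ1 * s 1 := hc2
        _ ≤ δ1 * (C' * (n * s n)) := by gcongr
        _ = _ := by ring
    exact le_of_mul_le_mul_right h3 hC'p
  have hδu : δ ≤ cu / (n * s n) := by
    rw [hδ]
    gcongr
  have hq0 : (q : ℝ) ≤ p₀ := hq
  have hp01 := p₀.2
  have hq1 := q.2
  have hG := windowT_mvt r n (C1 * n * (ab p₀ r 0 n * s n)) q p₀ hq1.1 hq0 hp01.2 ?_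
  · rw [← ab_eq_GT p₀ r n, ← ab_eq_GT q r n] at hG
    have h6 : C1 * n * (ab p₀ r 0 n * s n) * ((p₀ : ℝ) - q) ≤
        C1 * n * (ab p₀ r 0 n * s n) * δ := by gcongr
    have h7 : C1 * n * (ab p₀ r 0 n * s n) * δ = (c * C1) * ab p₀ r 0 n := by
      rw [hδ]
      field_simp
    have h8 : (c * C1) * ab p₀ r 0 n ≤ 1 / 2 * ab p₀ r 0 n := by gcongr
    linarith
  · intro z hz1 hz2
    refine hder n hn z ?_ ?_ ?_
    · rw [abs_le]
      constructor <;> linarith
    · intro j _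
      have h3 : ab z r 0 j ≤ ab p₀ r 0 j := ab_mono_param r 0 j hz2
      have := hapos j
      linarith
    · intro j hj
      have h3 := hup n hn (σ z) (by
        show ((σ p₀ : I) : ℝ) ≤ ((σ z : I) : ℝ)
        rw [unitInterval.coe_symm_eq, unitInterval.coe_symm_eq]
        linarith) (by
        rw [unitInterval.coe_symm_eq, unitInterval.coe_symm_eq]
        linarith) j hj
      have := hbpos j
      linarith

end Pool.Agent.H83.Site
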